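import Pool.Agent.R866.AP.Edge

/-!
# Basic facts on points, slopes and the topology
-/

set_option autoImplicit false
set_option linter.all false

open Filter Topology Set

namespace Pool.Agent.R866.AP

namespace MetricGraph

variable {Γ : MetricGraph}

lemma pt_of_le (e : Γ.E) {t : ℝ} (h : t ≤ 0) : Γ.pt e t = Pt.vertex (Γ.src e) := by
  unfold pt
  rw [dif_neg (by rintro ⟨h1, _⟩; linarith), if_pos h]

lemma pt_of_ge (e : Γ.E) {t : ℝ} (h : Γ.len e ≤ t) : Γ.pt e t = Pt.vertex (Γ.tgt e) := by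
  unfold pt
  have := Γ.len_pos e
  rw [dif_neg (by rintro ⟨_, h1⟩; linarith), if_neg (by linarith)]

lemma pt_of_mem (e : Γ.E) {t : ℝ} (h : 0 < t ∧ t < Γ.len e) :
    Γ.pt e t = Pt.inner e t h.1 h.2 := by
  unfold pt
  rw [dif_pos h]

lemma isOpen_iff (U : Set Γ.Pt) : IsOpen U ↔ ∀ e, IsOpen {t : ℝ | Γ.pt e t ∈ U} := Iff.rfl

lemma continuous_pt (e : Γ.E) : Continuous (Γ.pt e) := by
  rw [continuous_def]
  intro U hU
  exact hU e

lemma isClosed_iff (U : Set Γ.Pt) : IsClosed U ↔ ∀ e, IsClosed {t : ℝ | Γ.pt e t ∈ U} := by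
  rw [← isOpen_compl_iff, isOpen_iff]
  refine forall_congr' fun e => ?_
  rw [← isOpen_compl_iff]
  rfl

lemma isClosed_singleton' (x : Γ.Pt) : IsClosed ({x} : Set Γ.Pt) := by
  rw [isClosed_iff]
  intro e
  rcases x with v | ⟨e', t', h0, h1'⟩
  · have : {t : ℝ | Γ.pt e t ∈ ({Pt.vertex v} : Set Γ.Pt)} =
        {t | t ≤ 0 ∧ Γ.src e = v} ∪ {t | Γ.len e ≤ t ∧ Γ.tgt e = v} := by
      ext t
      simp only [mem_setOf_eq, mem_singleton_iff, mem_union]
      rcases le_or_gt t 0 with h | h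
      · rw [pt_of_le e h]
        constructor
        · intro h1
          exact Or.inl ⟨h, by simpa using h1⟩
        · rintro (⟨_, h1⟩ | ⟨h1, _⟩)
          · rw [h1]
          · exact absurd (Γ.len_pos e) (by linarith)
      · rcases le_or_gt (Γ.len e) t with h' | h'
        · rw [pt_of_ge e h']
          constructor
          · intro h1
            exact Or.inr ⟨h', by simpa using h1⟩
          · rintro (⟨h1, _⟩ | ⟨_, h1⟩)
            · linarith
            · rw [h1]
        · rw [pt_of_mem e ⟨h, h'⟩]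
          constructor
          · intro h1
            simp at h1
          · rintro (⟨h1, _⟩ | ⟨h1, _⟩) <;> linarith
    rw [this]
    apply IsClosed.union
    · by_cases h : Γ.src e = v
      · simpa [h] using isClosed_le continuous_id (continuous_const (y := (0 : ℝ)))
      · simp [h]
    · by_cases h : Γ.tgt e = v
      · simpa [h] using isClosed_le (continuous_const (y := Γ.len e)) continuous_id
      · simp [h]
  · by_cases h : e = e'
    · subst h
      have : {t : ℝ | Γ.pt e t ∈ ({Pt.inner e t' h0 h1'} : Set Γ.Pt)} = {t'} := by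
        ext t
        simp only [mem_setOf_eq, mem_singleton_iff]
        constructor
        · intro h1
          rcases le_or_gt t 0 with h2 | h2
          · rw [pt_of_le e h2] at h1; simp at h1
          · rcases le_or_gt (Γ.len e) t with h' | h'
            · rw [pt_of_ge e h'] at h1; simp at h1
            · rw [pt_of_mem e ⟨h2, h'⟩] at h1
              simpa using h1
        · rintro rfl
          rw [pt_of_mem e ⟨h0, h1'⟩]
      rw [this]
      exact isClosed_singleton
    · have : {t : ℝ | Γ.pt e t ∈ ({Pt.inner e' t' h0 h1'} : Set Γ.Pt)} = ∅ := by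
        ext t
        simp only [mem_setOf_eq, mem_singleton_iff, mem_empty_iff_false, iff_false]
        intro h1
        rcases le_or_gt t 0 with h2 | h2
        · rw [pt_of_le e h2] at h1; simp at h1
        · rcases le_or_gt (Γ.len e) t with h' | h'
          · rw [pt_of_ge e h'] at h1; simp at h1
          · rw [pt_of_mem e ⟨h2, h'⟩] at h1
            simp only [Pt.inner.injEq] at h1
            exact h h1.1
      rw [this]
      exact isClosed_empty

@[simp] lemma sg_true : sg true = 1 := rfl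
@[simp] lemma sg_false : sg false = -1 := rfl

lemma sg_sq (b : Bool) : sg b * sg b = 1 := by cases b <;> simp

lemma sg_ne (b : Bool) : sg b ≠ 0 := by cases b <;> simp

lemma abs_sg (b : Bool) : |sg b| = 1 := by cases b <;> simp

lemma sg_not (b : Bool) : sg (!b) = - sg b := by cases b <;> simp

lemma HasSlope.unique {g : Γ.Pt → ℝ} {e : Γ.E} {t : ℝ} {b : Bool} {m m' : ℤ}
    (h : HasSlope g e t b m) (h' : HasSlope g e t b m') : m = m' := by
  obtain ⟨ε, hε, h1⟩ := h
  obtain ⟨ε', hε', h2⟩ := h'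
  have a1 : 0 < min ε ε' := lt_min hε hε'
  have a2 := min_le_left ε ε'
  have a3 := min_le_right ε ε'
  have b1 := h1 (min ε ε' / 2) (by linarith) (by linarith)
  have b2 := h2 (min ε ε' / 2) (by linarith) (by linarith)
  rw [b1] at b2
  have : (m : ℝ) * (min ε ε' / 2) = m' * (min ε ε' / 2) := by linarith
  have := mul_right_cancel₀ (by positivity) this
  exact_mod_cast this

lemma HasSlope.slope_eq {g : Γ.Pt → ℝ} {e : Γ.E} {t : ℝ} {b : Bool} {m : ℤ}
    (h : HasSlope g e t b m) : slope g e t b = m := by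
  unfold slope
  have h' : ∃ m, HasSlope g e t b m := ⟨m, h⟩
  rw [dif_pos h']
  exact h'.choose_spec.unique h

lemma hasSlope_of_lt {g : Γ.Pt → ℝ} {e : Γ.E} {t : ℝ} (b : Bool) (h : t < 0) :
    HasSlope g e t b 0 := by
  refine ⟨-t, by linarith, fun s h1 h2 => ?_⟩
  rw [pt_of_le e h.le, pt_of_le e]
  · simp
  · cases b <;> simp <;> linarith

lemma hasSlope_of_gt {g : Γ.Pt → ℝ} {e : Γ.E} {t : ℝ} (b : Bool) (h : Γ.len e < t) :
    HasSlope g e t b 0 := by
  refine ⟨t - Γ.len e, by linarith, fun s h1 h2 => ?_⟩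
  rw [pt_of_ge e h.le, pt_of_ge e]
  · simp
  · cases b <;> simp <;> linarith

lemma hasSlope_zero_false {g : Γ.Pt → ℝ} {e : Γ.E} : HasSlope g e 0 false 0 := by
  refine ⟨1, one_pos, fun s h1 h2 => ?_⟩
  rw [pt_of_le e le_rfl, pt_of_le e]
  · simp
  · simp; linarith

lemma hasSlope_len_true {g : Γ.Pt → ℝ} {e : Γ.E} : HasSlope g e (Γ.len e) true 0 := by
  refine ⟨1, one_pos, fun s h1 h2 => ?_⟩
  rw [pt_of_ge e le_rfl, pt_of_ge e]
  · simp
  · simp; linarith

lemma IsRational.exists {g : Γ.Pt → ℝ} (hg : IsRational g) (e : Γ.E) (t : ℝ) (b : Bool) :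
    ∃ m, HasSlope g e t b m := by
  rcases lt_trichotomy t 0 with h | h | h
  · exact ⟨0, hasSlope_of_lt b h⟩
  · subst h
    cases b
    · exact ⟨0, hasSlope_zero_false⟩
    · exact (hg e 0).1 le_rfl (Γ.len_pos e)
  · rcases lt_trichotomy t (Γ.len e) with h' | h' | h'
    · cases b
      · exact (hg e t).2 h h'.le
      · exact (hg e t).1 h.le h'
    · subst h'
      cases b
      · exact (hg e _).2 h le_rfl
      · exact ⟨0, hasSlope_len_true⟩
    · exact ⟨0, hasSlope_of_gt b h'⟩

lemma IsRational.hasSlope {g : Γ.Pt → ℝ} (hg : IsRational g) (e : Γ.E) (t : ℝ) (b : Bool) :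
    HasSlope g e t b (slope g e t b) := by
  obtain ⟨m, hm⟩ := hg.exists e t b
  rw [hm.slope_eq]
  exact hm

lemma isRational_of {g : Γ.Pt → ℝ} (hg : ∀ e t b, ∃ m, HasSlope g e t b m) : IsRational g :=
  fun e t => ⟨fun _ _ => hg e t true, fun _ _ => hg e t false⟩

lemma IsRational.loc {g : Γ.Pt → ℝ} (hg : IsRational g) (e : Γ.E) :
    Loc (fun t => g (Γ.pt e t)) (fun t => slope g e t true) (fun t => slope g e t false) := by
  intro t
  obtain ⟨ε, hε, h1⟩ := hg.hasSlope e t true
  obtain ⟨ε', hε', h2⟩ := hg.hasSlope e t false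
  refine ⟨min ε ε', lt_min hε hε', fun s h3 h4 => ⟨?_, ?_⟩⟩
  · have := h1 s h3 (h4.trans_le (min_le_left _ _))
    simpa using this
  · have := h2 s h3 (h4.trans_le (min_le_right _ _))
    simpa [sub_eq_add_neg] using this

lemma Loc.continuous {G : ℝ → ℝ} {R L : ℝ → ℤ} (h : Loc G R L) : Continuous G := by
  rw [continuous_iff_continuousAt]
  intro t
  obtain ⟨ε, hε, h1⟩ := h t
  rw [Metric.continuousAt_iff]
  intro δ hδ
  set K : ℝ := |(R t : ℝ)| + |(L t : ℝ)| + 1 with hK
  have K0 : 0 < K := by positivity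
  refine ⟨min ε (δ / K), lt_min hε (by positivity), fun {t'} ht' => ?_⟩
  rw [Real.dist_eq] at ht' ⊢
  have e1 : |t' - t| < ε := ht'.trans_le (min_le_left _ _)
  have e2 : |t' - t| < δ / K := ht'.trans_le (min_le_right _ _)
  have e3 : |t' - t| * K < δ := by rwa [lt_div_iff₀ K0] at e2
  rcases le_total t t' with h2 | h2
  · rw [abs_of_nonneg (by linarith)] at e1 e3
    have := (h1 (t' - t) (by linarith) e1).1
    rw [show t + (t' - t) = t' by ring] at this
    rw [this, show G t + R t * (t' - t) - G t = R t * (t' - t) by ring, abs_mul,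
      abs_of_nonneg (show (0 : ℝ) ≤ t' - t by linarith)]
    have : |(R t : ℝ)| * (t' - t) ≤ (t' - t) * K := by
      have h5 : |(R t : ℝ)| ≤ K := by rw [hK]; have := abs_nonneg (L t : ℝ); linarith
      have := mul_le_mul_of_nonneg_right h5 (show (0 : ℝ) ≤ t' - t by linarith)
      linarith [mul_comm K (t' - t)]
    linarith
  · rw [abs_of_nonpos (by linarith)] at e1 e3
    have := (h1 (t - t') (by linarith) (by linarith)).2
    rw [show t - (t - t') = t' by ring] at this
    rw [this, show G t + L t * (t - t') - G t = L t * (t - t') by ring, abs_mul,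
      abs_of_nonneg (show (0 : ℝ) ≤ t - t' by linarith)]
    have : |(L t : ℝ)| * (t - t') ≤ (t - t') * K := by
      have h5 : |(L t : ℝ)| ≤ K := by rw [hK]; have := abs_nonneg (R t : ℝ); linarith
      have := mul_le_mul_of_nonneg_right h5 (show (0 : ℝ) ≤ t - t' by linarith)
      linarith [mul_comm K (t - t')]
    linarith [show -(t' - t) * K = (t - t') * K by ring]

lemma IsRational.continuous_edge {g : Γ.Pt → ℝ} (hg : IsRational g) (e : Γ.E) :
    Continuous fun t => g (Γ.pt e t) := Loc.continuous (hg.loc e)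

lemma IsRational.continuous {g : Γ.Pt → ℝ} (hg : IsRational g) : Continuous g := by
  rw [continuous_def]
  intro U hU
  rw [isOpen_iff]
  intro e
  exact hU.preimage (hg.continuous_edge e)

/-- composition with a locally affine map -/
lemma HasSlope.add {g h : Γ.Pt → ℝ} {e : Γ.E} {t : ℝ} {b : Bool} {m m' : ℤ}
    (h1 : HasSlope g e t b m) (h2 : HasSlope h e t b m') :
    HasSlope (fun x => g x + h x) e t b (m + m') := by
  obtain ⟨ε, hε, a1⟩ := h1
  obtain ⟨ε', hε', a2⟩ := h2
  refine ⟨min ε ε', lt_min hε hε', fun s h3 h4 => ?_⟩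
  beta_reduce
  rw [a1 s h3 (h4.trans_le (min_le_left _ _)), a2 s h3 (h4.trans_le (min_le_right _ _))]
  push_cast
  ring

lemma HasSlope.neg {g : Γ.Pt → ℝ} {e : Γ.E} {t : ℝ} {b : Bool} {m : ℤ}
    (h1 : HasSlope g e t b m) : HasSlope (fun x => - g x) e t b (-m) := by
  obtain ⟨ε, hε, a1⟩ := h1
  refine ⟨ε, hε, fun s h3 h4 => ?_⟩
  beta_reduce
  rw [a1 s h3 h4]
  push_cast
  ring

lemma HasSlope.add_const {g : Γ.Pt → ℝ} {e : Γ.E} {t : ℝ} {b : Bool} {m : ℤ}
    (h1 : HasSlope g e t b m) (c : ℝ) : HasSlope (fun x => g x + c) e t b m := by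
  obtain ⟨ε, hε, a1⟩ := h1
  refine ⟨ε, hε, fun s h3 h4 => ?_⟩
  beta_reduce
  rw [a1 s h3 h4]
  ring

lemma HasSlope.abs {g : Γ.Pt → ℝ} {e : Γ.E} {t : ℝ} {b : Bool} {m : ℤ}
    (h1 : HasSlope g e t b m) : HasSlope (fun x => |g x|) e t b
      (if 0 < g (Γ.pt e t) then m else if g (Γ.pt e t) < 0 then -m else |m|) := by
  obtain ⟨ε, hε, a1⟩ := h1
  split_ifs with h2 h3
  · have hM : (0 : ℝ) < |(m : ℝ)| + 1 := by positivity
    refine ⟨min ε (g (Γ.pt e t) / (|(m : ℝ)| + 1)), lt_min hε (by positivity), fun s h4 h5 => ?_⟩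
    have e1 := h5.trans_le (min_le_left _ _)
    have e2 := h5.trans_le (min_le_right _ _)
    rw [lt_div_iff₀ hM] at e2
    beta_reduce
    rw [a1 s h4 e1, abs_of_pos h2, abs_of_nonneg]
    have : -(|(m : ℝ)| * s) ≤ m * s := by
      have := mul_le_mul_of_nonneg_right (neg_abs_le (m : ℝ)) h4
      linarith
    nlinarith
  · have hM : (0 : ℝ) < |(m : ℝ)| + 1 := by positivity
    have h3' : 0 < - g (Γ.pt e t) := by linarith
    refine ⟨min ε (- g (Γ.pt e t) / (|(m : ℝ)| + 1)), lt_min hε (by positivity), fun s h4 h5 => ?_⟩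
    have e1 := h5.trans_le (min_le_left _ _)
    have e2 := h5.trans_le (min_le_right _ _)
    rw [lt_div_iff₀ hM] at e2
    beta_reduce
    rw [a1 s h4 e1, abs_of_neg h3, abs_of_nonpos]
    · push_cast; ring
    · have : m * s ≤ (|(m : ℝ)| * s) := mul_le_mul_of_nonneg_right (le_abs_self (m : ℝ)) h4
      nlinarith
  · have h0 : g (Γ.pt e t) = 0 := le_antisymm (not_lt.1 h2) (not_lt.1 h3)
    refine ⟨ε, hε, fun s h4 h5 => ?_⟩
    beta_reduce
    rw [a1 s h4 h5, h0, zero_add, abs_mul, abs_of_nonneg h4, abs_zero, zero_add]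
    push_cast
    rfl

lemma IsRational.abs {g : Γ.Pt → ℝ} (hg : IsRational g) : IsRational fun x => |g x| :=
  isRational_of fun e t b => ⟨_, (hg.hasSlope e t b).abs⟩

lemma IsRational.add {g h : Γ.Pt → ℝ} (hg : IsRational g) (hh : IsRational h) :
    IsRational fun x => g x + h x :=
  isRational_of fun e t b => ⟨_, (hg.hasSlope e t b).add (hh.hasSlope e t b)⟩

lemma IsRational.add_const {g : Γ.Pt → ℝ} (hg : IsRational g) (c : ℝ) :
    IsRational fun x => g x + c :=
  isRational_of fun e t b => ⟨_, (hg.hasSlope e t b).add_const c⟩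

/-! ### directions -/

lemma pt_par {x : Γ.Pt} {a : Γ.E × Bool} (h : a ∈ dirs x) : Γ.pt a.1 (par x a) = x := by
  obtain ⟨e, b⟩ := a
  rcases x with v | ⟨e', t', h0, h1'⟩
  · simp only [dirs, Finset.mem_filter] at h
    cases b
    · simp only [Bool.false_eq_true, if_false, par] at h ⊢
      rw [pt_of_ge e le_rfl, h.2]
    · simp only [if_true, par] at h ⊢
      rw [pt_of_le e le_rfl, h.2]
  · unfold dirs at h
    simp only [Finset.mem_insert, Finset.mem_singleton, Prod.mk.injEq] at h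
    unfold par
    rcases h with ⟨rfl, rfl⟩ | ⟨rfl, rfl⟩ <;> exact pt_of_mem _ ⟨h0, h1'⟩

/-- a valid direction at a parameter -/
lemma dir_of {e : Γ.E} {t : ℝ} {b : Bool} (h : (b = true ∧ 0 ≤ t ∧ t < Γ.len e) ∨
    (b = false ∧ 0 < t ∧ t ≤ Γ.len e)) :
    (e, b) ∈ dirs (Γ.pt e t) ∧ par (Γ.pt e t) (e, b) = t := by
  rcases h with ⟨rfl, h1, h2⟩ | ⟨rfl, h1, h2⟩
  · rcases h1.eq_or_lt with rfl | h1
    · rw [pt_of_le e le_rfl]
      simp [dirs, par]
    · rw [pt_of_mem e ⟨h1, h2⟩]
      simp [dirs, par]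
  · rcases h2.eq_or_lt with rfl | h2
    · rw [pt_of_ge e le_rfl]
      simp [dirs, par]
    · rw [pt_of_mem e ⟨h1, h2⟩]
      simp [dirs, par]

/-- the other parameters and directions are constant -/
lemma dir_or {e : Γ.E} {t : ℝ} {b : Bool} :
    ((b = true ∧ 0 ≤ t ∧ t < Γ.len e) ∨ (b = false ∧ 0 < t ∧ t ≤ Γ.len e)) ∨
    (∃ ε > 0, ∀ s, 0 ≤ s → s < ε → Γ.pt e (t + sg b * s) = Γ.pt e t) := by
  have hl := Γ.len_pos e
  rcases lt_trichotomy t 0 with h | h | h
  · right
    refine ⟨-t, by linarith, fun s h1 h2 => ?_⟩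
    rw [pt_of_le e h.le, pt_of_le e]
    cases b <;> simp <;> linarith
  · subst h
    cases b
    · right
      refine ⟨1, one_pos, fun s h1 h2 => ?_⟩
      rw [pt_of_le e le_rfl, pt_of_le e]
      simp; linarith
    · left; left; exact ⟨rfl, le_rfl, hl⟩
  · rcases lt_trichotomy t (Γ.len e) with h' | h' | h'
    · left
      cases b
      · right; exact ⟨rfl, h, h'.le⟩
      · left; exact ⟨rfl, h.le, h'⟩
    · subst h'
      cases b
      · left; right; exact ⟨rfl, h, le_rfl⟩
      · right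
        refine ⟨1, one_pos, fun s h1 h2 => ?_⟩
        rw [pt_of_ge e le_rfl, pt_of_ge e]
        simp; linarith
    · right
      refine ⟨t - Γ.len e, by linarith, fun s h1 h2 => ?_⟩
      rw [pt_of_ge e h'.le, pt_of_ge e]
      cases b <;> simp <;> linarith

end MetricGraph

end Pool.Agent.R866.AP
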