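import Pool.Agent.R866.AP.Deg

/-!
# The covering map and the covering involution
-/

set_option autoImplicit false
set_option linter.all false

open Filter Topology Set

namespace Pool.Agent.R866.AP

open MetricGraph

namespace FreeDoubleCover

variable {Γ' Γ : MetricGraph} (π : FreeDoubleCover Γ' Γ)

lemma ιV_ιV (v : Γ'.V) : π.ιV (π.ιV v) = v := by
  have h := (π.fibV (π.ιV v) v).1 (π.mV_ιV v)
  rcases h with h | h
  · exact absurd h.symm (π.freeV v)
  · exact h.symm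

lemma ιE_ιE (e : Γ'.E) : π.ιE (π.ιE e) = e := by
  have h := (π.fibE (π.ιE e) e).1 (π.mE_ιE e)
  rcases h with h | h
  · exact absurd h.symm (π.freeE e)
  · exact h.symm

lemma iota_pt (e : Γ'.E) (t : ℝ) : π.iota (Γ'.pt e t) = Γ'.pt (π.ιE e) t := by
  rcases le_or_gt t 0 with h | h
  · rw [pt_of_le e h, pt_of_le _ h]
    simp [iota, π.src_ιE]
  · rcases le_or_gt (Γ'.len e) t with h' | h'
    · rw [pt_of_ge e h', pt_of_ge _ (by rwa [π.len_ιE])]
      simp [iota, π.tgt_ιE]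
    · rw [pt_of_mem e ⟨h, h'⟩, pt_of_mem _ ⟨h, by rwa [π.len_ιE]⟩]
      simp [iota]

lemma map_pt (e : Γ'.E) (t : ℝ) : π.map (Γ'.pt e t) = Γ.pt (π.mE e) t := by
  rcases le_or_gt t 0 with h | h
  · rw [pt_of_le e h, pt_of_le _ h]
    simp [map, π.src_mE]
  · rcases le_or_gt (Γ'.len e) t with h' | h'
    · rw [pt_of_ge e h', pt_of_ge _ (by rwa [π.len_mE])]
      simp [map, π.tgt_mE]
    · rw [pt_of_mem e ⟨h, h'⟩, pt_of_mem _ ⟨h, by rwa [π.len_mE]⟩]
      simp [map]

lemma iota_iota (x : Γ'.Pt) : π.iota (π.iota x) = x := by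
  rcases x with v | ⟨e, t, h0, h1⟩
  · simp [iota, π.ιV_ιV]
  · simp [iota, π.ιE_ιE]

lemma iota_ne (x : Γ'.Pt) : π.iota x ≠ x := by
  rcases x with v | ⟨e, t, h0, h1⟩
  · simpa [iota] using π.freeV v
  · simpa [iota] using π.freeE e

lemma iota_inj {x y : Γ'.Pt} (h : π.iota x = π.iota y) : x = y := by
  rw [← π.iota_iota x, h, π.iota_iota]

/-- `ι` exchanges the two points of every fibre of the covering map. -/
lemma map_eq_iff (x y : Γ'.Pt) : π.map x = π.map y ↔ y = x ∨ y = π.iota x := by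
  rcases x with v | ⟨e, t, h0, h1⟩ <;> rcases y with w | ⟨e', t', h0', h1'⟩
  · simp only [map, iota, Pt.vertex.injEq]
    exact π.fibV v w
  · simp [map, iota]
  · simp [map, iota]
  · simp only [map, iota, Pt.inner.injEq]
    rw [π.fibE]
    tauto

lemma map_surjective : Function.Surjective π.map := by
  rintro (v | ⟨e, t, h0, h1⟩)
  · obtain ⟨w, rfl⟩ := π.surjV v
    exact ⟨Pt.vertex w, rfl⟩
  · obtain ⟨e', rfl⟩ := π.surjE e
    exact ⟨Pt.inner e' t h0 (by rwa [π.len_mE] at h1), rfl⟩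

/-- images of invariant open sets are open -/
lemma isOpen_of {U : Set Γ.Pt} (hU : IsOpen (π.map ⁻¹' U)) : IsOpen U := by
  rw [MetricGraph.isOpen_iff] at hU ⊢
  intro e
  obtain ⟨e', rfl⟩ := π.surjE e
  have := hU e'
  simpa only [mem_preimage, π.map_pt] using this

variable {f : Γ'.Pt → ℝ}

lemma hasSlope_iota {e : Γ'.E} {t : ℝ} {b : Bool} {m : ℤ} (h : HasSlope f (π.ιE e) t b m) :
    HasSlope (fun x => f (π.iota x)) e t b m := by
  obtain ⟨ε, hε, h1⟩ := h
  refine ⟨ε, hε, fun s h2 h3 => ?_⟩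
  beta_reduce
  rw [π.iota_pt, π.iota_pt]
  exact h1 s h2 h3

lemma isRational_iota (hf : IsRational f) : IsRational fun x => f (π.iota x) :=
  isRational_of fun e t b => ⟨_, π.hasSlope_iota (hf.hasSlope (π.ιE e) t b)⟩

lemma slope_iota (hf : IsRational f) (e : Γ'.E) (t : ℝ) (b : Bool) :
    slope (fun x => f (π.iota x)) e t b = slope f (π.ιE e) t b :=
  (π.hasSlope_iota (hf.hasSlope (π.ιE e) t b)).slope_eq

lemma mem_dirs_iota {x : Γ'.Pt} {a : Γ'.E × Bool} (h : a ∈ dirs x) :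
    (π.ιE a.1, a.2) ∈ dirs (π.iota x) := by
  obtain ⟨e, b⟩ := a
  rcases x with v | ⟨e', t, h0, h1⟩
  · simp only [dirs, iota, Finset.mem_filter, Finset.mem_univ, true_and] at h ⊢
    rw [π.src_ιE, π.tgt_ιE, ← h]
    cases b <;> simp
  · simp only [dirs, iota, Finset.mem_insert, Finset.mem_singleton, Prod.mk.injEq] at h ⊢
    rcases h with ⟨rfl, rfl⟩ | ⟨rfl, rfl⟩ <;> simp

lemma par_iota (x : Γ'.Pt) (a : Γ'.E × Bool) :
    par (π.iota x) (π.ιE a.1, a.2) = par x a := by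
  rcases x with v | ⟨e', t, h0, h1⟩
  · simp [par, iota, π.len_ιE]
  · simp [par, iota]

lemma sum_dirs_iota (x : Γ'.Pt) (w : Γ'.E → ℝ → Bool → ℤ) :
    ∑ a ∈ dirs x, w (π.ιE a.1) (par x a) a.2 =
      ∑ a ∈ dirs (π.iota x), w a.1 (par (π.iota x) a) a.2 := by
  refine Finset.sum_nbij' (fun a => (π.ιE a.1, a.2)) (fun a => (π.ιE a.1, a.2)) ?_ ?_ ?_ ?_ ?_
  · intro a ha
    exact π.mem_dirs_iota ha
  · intro a ha
    have := π.mem_dirs_iota ha
    rwa [π.iota_iota] at this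
  · intro a _
    simp [π.ιE_ιE]
  · intro a _
    simp [π.ιE_ιE]
  · intro a _
    simp only
    rw [π.par_iota]

lemma div_iota (hf : IsRational f) (x : Γ'.Pt) :
    div (fun x => f (π.iota x)) x = div f (π.iota x) := by
  unfold div
  rw [← π.sum_dirs_iota x fun e t b => slope f e t b]
  refine Finset.sum_congr rfl fun a _ => ?_
  rw [π.slope_iota hf]

lemma nn_iota (hf : IsRational f) (x : Γ'.Pt) :
    nn (fun x => f (π.iota x)) x = nn f (π.iota x) := by
  unfold nn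
  rw [← π.sum_dirs_iota x fun e t b => |slope f e t b|]
  refine Finset.sum_congr rfl fun a _ => ?_
  rw [π.slope_iota hf]

end FreeDoubleCover

end Pool.Agent.R866.AP
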