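import Mathlib

/-!
# Metric graphs, rational functions, free double covers and the Abel-Prym map
-/

set_option autoImplicit false

namespace Pool.Agent.R866.AP

/-- A metric graph, given by a finite graph (loops and multiple edges are allowed) together with a
positive real length for each edge. Every edge has a source and a target; this is only used to
name its points. -/
structure MetricGraph where
  /-- the vertices -/
  V : Type
  /-- the edges -/
  E : Type
  /-- there are finitely many vertices -/
  finV : Fintype V
  /-- there are finitely many edges -/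
  finE : Fintype E
  /-- the source of an edge -/
  src : E → V
  /-- the target of an edge -/
  tgt : E → V
  /-- the length of an edge -/
  len : E → ℝ
  /-- lengths are positive -/
  len_pos : ∀ e, 0 < len e

namespace MetricGraph

variable (Γ : MetricGraph)

instance : Fintype Γ.V := Γ.finV
instance : Fintype Γ.E := Γ.finE

/-- The points of a metric graph: the vertices, and for each edge `e` and each number `t` with
`0 < t < len e` the interior point of `e` at distance `t` from its source. -/
inductive Pt : Type
  /-- a vertex -/
  | vertex (v : Γ.V) : Pt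
  /-- an interior point of an edge -/
  | inner (e : Γ.E) (t : ℝ) (h₀ : 0 < t) (h₁ : t < Γ.len e) : Pt

open Classical in
/-- The point of the edge `e` at distance `t` from its source, for `0 ≤ t ≤ len e`. (It is
convenient to allow all real `t`: the source for `t ≤ 0` and the target for `t ≥ len e`.) -/
noncomputable def pt (e : Γ.E) (t : ℝ) : Γ.Pt :=
  if h : 0 < t ∧ t < Γ.len e then Pt.inner e t h.1 h.2
  else if t ≤ 0 then Pt.vertex (Γ.src e) else Pt.vertex (Γ.tgt e)

/-- The topology of the metric graph: the quotient topology, the finest one for which all the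
parametrizations `t ↦ pt e t` of the edges are continuous. -/
instance : TopologicalSpace Γ.Pt where
  IsOpen U := ∀ e, IsOpen {t : ℝ | Γ.pt e t ∈ U}
  isOpen_univ := fun e => by simp
  isOpen_inter := fun U W hU hW e => (hU e).inter (hW e)
  isOpen_sUnion := fun S hS e => by
    have : {t : ℝ | Γ.pt e t ∈ ⋃₀ S} = ⋃ U ∈ S, {t : ℝ | Γ.pt e t ∈ U} := by
      ext t; simp
    rw [this]
    exact isOpen_biUnion fun U hU => hS U hU e

variable {Γ}

/-- The sign of a direction along an edge: `true` is the direction from the source to the target. -/
def sg (b : Bool) : ℝ := if b then 1 else -1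

/-- At the point of the edge `e` with parameter `t`, in the direction `b` along `e`, the function `g`
is affine with outgoing slope the integer `m` for a positive length. -/
def HasSlope (g : Γ.Pt → ℝ) (e : Γ.E) (t : ℝ) (b : Bool) (m : ℤ) : Prop :=
  ∃ ε > 0, ∀ s, 0 ≤ s → s < ε → g (Γ.pt e (t + sg b * s)) = g (Γ.pt e t) + m * s

/-- Rational functions on a metric graph: the (continuous) piecewise linear functions with integer
slopes. In every direction at every point the function is affine with integer slope for a positive
length. -/
def IsRational (g : Γ.Pt → ℝ) : Prop :=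
  ∀ e t, (0 ≤ t → t < Γ.len e → ∃ m, HasSlope g e t true m) ∧
    (0 < t → t ≤ Γ.len e → ∃ m, HasSlope g e t false m)

open Classical in
/-- The outgoing slope of `g` at the point of `e` with parameter `t` in the direction `b`. -/
noncomputable def slope (g : Γ.Pt → ℝ) (e : Γ.E) (t : ℝ) (b : Bool) : ℤ :=
  if h : ∃ m, HasSlope g e t b m then h.choose else 0

open Classical in
/-- The tangent directions at a point: at a vertex `v`, the directions `(e, true)` for the edges `e`
with source `v` and `(e, false)` for the edges `e` with target `v` (so a loop gives two directions);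
at an interior point of the edge `e`, the two directions `(e, true)`, `(e, false)`. -/
noncomputable def dirs : Γ.Pt → Finset (Γ.E × Bool)
  | Pt.vertex v => Finset.univ.filter fun a => (if a.2 then Γ.src a.1 else Γ.tgt a.1) = v
  | Pt.inner e _ _ _ => {(e, true), (e, false)}

/-- The parameter of the point on the edge of the given tangent direction. -/
def par : Γ.Pt → Γ.E × Bool → ℝ
  | Pt.vertex _, a => if a.2 then 0 else Γ.len a.1
  | Pt.inner _ t _ _, _ => t

/-- The divisor of a function: its value at a point is the sum of the outgoing slopes. -/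
noncomputable def div (g : Γ.Pt → ℝ) (x : Γ.Pt) : ℤ :=
  ∑ a ∈ dirs x, slope g a.1 (par x a) a.2

/-- Linear equivalence of divisors: the difference is the divisor of a rational function. -/
def LinEquiv (D D' : Γ.Pt →₀ ℤ) : Prop :=
  ∃ g : Γ.Pt → ℝ, IsRational g ∧ ∀ x, D x - D' x = div g x

end MetricGraph

/-- A free double cover of metric graphs (with the graph structure of the total space lifted from
the base): surjective maps on vertices and on edges, compatible with sources, targets and lengths,
such that all fibres consist of exactly two elements, which are exchanged by the maps `ιV`, `ιE`;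
these are compatible with sources and targets. -/
structure FreeDoubleCover (Γ' Γ : MetricGraph) where
  /-- the covering map on vertices -/
  mV : Γ'.V → Γ.V
  /-- the covering map on edges -/
  mE : Γ'.E → Γ.E
  /-- the covering involution on vertices -/
  ιV : Γ'.V → Γ'.V
  /-- the covering involution on edges -/
  ιE : Γ'.E → Γ'.E
  /-- compatibility of the cover with sources -/
  src_mE : ∀ e, Γ.src (mE e) = mV (Γ'.src e)
  /-- compatibility of the cover with targets -/
  tgt_mE : ∀ e, Γ.tgt (mE e) = mV (Γ'.tgt e)
  /-- the cover is an isometry on edges -/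
  len_mE : ∀ e, Γ.len (mE e) = Γ'.len e
  /-- compatibility of the involution with sources -/
  src_ιE : ∀ e, Γ'.src (ιE e) = ιV (Γ'.src e)
  /-- compatibility of the involution with targets -/
  tgt_ιE : ∀ e, Γ'.tgt (ιE e) = ιV (Γ'.tgt e)
  /-- the cover is surjective on vertices -/
  surjV : Function.Surjective mV
  /-- the cover is surjective on edges -/
  surjE : Function.Surjective mE
  /-- the fibres on vertices consist of the two distinct elements `v`, `ιV v` -/
  fibV : ∀ v w, mV v = mV w ↔ w = v ∨ w = ιV v
  /-- the involution has no fixed vertex -/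
  freeV : ∀ v, ιV v ≠ v
  /-- the fibres on edges consist of the two distinct elements `e`, `ιE e` -/
  fibE : ∀ e e', mE e = mE e' ↔ e' = e ∨ e' = ιE e
  /-- the involution has no fixed edge -/
  freeE : ∀ e, ιE e ≠ e

namespace FreeDoubleCover

variable {Γ' Γ : MetricGraph} (π : FreeDoubleCover Γ' Γ)

lemma mE_ιE (e : Γ'.E) : π.mE (π.ιE e) = π.mE e := ((π.fibE e (π.ιE e)).2 (Or.inr rfl)).symm

lemma mV_ιV (v : Γ'.V) : π.mV (π.ιV v) = π.mV v := ((π.fibV v (π.ιV v)).2 (Or.inr rfl)).symm

lemma len_ιE (e : Γ'.E) : Γ'.len (π.ιE e) = Γ'.len e := by
  rw [← π.len_mE, ← π.len_mE, mE_ιE]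

/-- The covering map on points. -/
def map : Γ'.Pt → Γ.Pt
  | MetricGraph.Pt.vertex v => MetricGraph.Pt.vertex (π.mV v)
  | MetricGraph.Pt.inner e t h₀ h₁ =>
      MetricGraph.Pt.inner (π.mE e) t h₀ (lt_of_lt_of_eq h₁ (π.len_mE e).symm)

/-- The covering involution `ι` on points: it exchanges the two points of every fibre. -/
def iota : Γ'.Pt → Γ'.Pt
  | MetricGraph.Pt.vertex v => MetricGraph.Pt.vertex (π.ιV v)
  | MetricGraph.Pt.inner e t h₀ h₁ =>
      MetricGraph.Pt.inner (π.ιE e) t h₀ (lt_of_lt_of_eq h₁ (π.len_ιE e).symm)

/-- The divisor `p - ι p`; its class is the image `Ψ₁(p)` of `p` under the Abel-Prym map. -/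
noncomputable def prym (p : Γ'.Pt) : Γ'.Pt →₀ ℤ :=
  Finsupp.single p 1 - Finsupp.single (π.iota p) 1

/-- The Abel-Prym map `Ψ₁` is finite: all its fibres are finite. -/
def FiniteAbelPrym : Prop :=
  ∀ q : Γ'.Pt, {p : Γ'.Pt | MetricGraph.LinEquiv (π.prym p) (π.prym q)}.Finite

/-- The Abel-Prym map `Ψ₁` is injective. -/
def InjectiveAbelPrym : Prop :=
  ∀ p q : Γ'.Pt, MetricGraph.LinEquiv (π.prym p) (π.prym q) → p = q

end FreeDoubleCover

/-- A metric graph is 2-connected if the complement of every point is connected. -/
def TwoConnected (Γ : MetricGraph) : Prop := ∀ x : Γ.Pt, IsConnected ({x}ᶜ : Set Γ.Pt)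

end Pool.Agent.R866.AP
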