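import Pool.Agent.R866.AP.Basic

/-!
# The degree of a principal divisor is zero; the divisor of `|f|`
-/

set_option autoImplicit false
set_option linter.all false

open Filter Topology Set

namespace Pool.Agent.R866.AP

namespace MetricGraph

variable {Γ : MetricGraph}

lemma slope_lt {g : Γ.Pt → ℝ} {e : Γ.E} {t : ℝ} (b : Bool) (h : t < 0) : slope g e t b = 0 :=
  (hasSlope_of_lt b h).slope_eq

lemma slope_gt {g : Γ.Pt → ℝ} {e : Γ.E} {t : ℝ} (b : Bool) (h : Γ.len e < t) :
    slope g e t b = 0 := (hasSlope_of_gt b h).slope_eq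

lemma IsRational.finite_edge {g : Γ.Pt → ℝ} (hg : IsRational g) (e : Γ.E) :
    {t | slope g e t true + slope g e t false ≠ 0}.Finite :=
  (hg.loc e).finite (fun t ht => ⟨slope_lt _ ht, slope_lt _ ht⟩)
    (fun t ht => ⟨slope_gt _ ht, slope_gt _ ht⟩)

lemma div_inner (g : Γ.Pt → ℝ) (e : Γ.E) {t : ℝ} (h : 0 < t ∧ t < Γ.len e) :
    div g (Γ.pt e t) = slope g e t true + slope g e t false := by
  classical
  rw [pt_of_mem e h]
  unfold div
  simp only [dirs, par]
  rw [Finset.sum_pair (by simp)]

theorem IsRational.exists_support {g : Γ.Pt → ℝ} (hg : IsRational g) :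
    ∃ S : Finset Γ.Pt, (∀ x, div g x ≠ 0 → x ∈ S) ∧ ∑ x ∈ S, div g x = 0 := by
  classical
  let F : Γ.E → Finset ℝ := fun e => (hg.finite_edge e).toFinset.filter fun t => 0 < t ∧ t < Γ.len e
  let S1 : Finset Γ.Pt := Finset.univ.image Pt.vertex
  let S2 : Finset Γ.Pt := (Finset.univ.sigma F).image fun p => Γ.pt p.1 p.2
  have hF : ∀ p ∈ Finset.univ.sigma F, 0 < p.2 ∧ p.2 < Γ.len p.1 := by
    intro p hp
    rw [Finset.mem_sigma] at hp
    exact (Finset.mem_filter.1 hp.2).2
  have hdisj : Disjoint S1 S2 := by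
    rw [Finset.disjoint_left]
    intro x hx hx'
    obtain ⟨v, -, rfl⟩ := Finset.mem_image.1 hx
    obtain ⟨p, hp, h⟩ := Finset.mem_image.1 hx'
    rw [pt_of_mem p.1 (hF p hp)] at h
    simp at h
  refine ⟨S1 ∪ S2, ?_, ?_⟩
  · intro x hx
    rw [Finset.mem_union]
    rcases x with v | ⟨e, t, h0, h1⟩
    · left
      exact Finset.mem_image.2 ⟨v, Finset.mem_univ _, rfl⟩
    · right
      refine Finset.mem_image.2 ⟨⟨e, t⟩, ?_, pt_of_mem e ⟨h0, h1⟩⟩
      rw [Finset.mem_sigma]
      refine ⟨Finset.mem_univ _, Finset.mem_filter.2 ⟨?_, h0, h1⟩⟩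
      rw [Set.Finite.mem_toFinset]
      have := div_inner g e ⟨h0, h1⟩
      rw [pt_of_mem e ⟨h0, h1⟩] at this
      rw [this] at hx
      exact hx
  · rw [Finset.sum_union hdisj]
    have e1 : ∑ x ∈ S1, div g x = ∑ e : Γ.E, (slope g e 0 true + slope g e (Γ.len e) false) := by
      rw [Finset.sum_image (fun a _ b _ h => by simpa using h)]
      have e0 := Finset.sum_fiberwise (Finset.univ : Finset (Γ.E × Bool))
        (fun a => if a.2 then Γ.src a.1 else Γ.tgt a.1)
        (fun a => slope g a.1 (if a.2 then 0 else Γ.len a.1) a.2)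
      have e0' : ∑ v : Γ.V, div g (Pt.vertex v) =
          ∑ v : Γ.V, ∑ a ∈ (Finset.univ : Finset (Γ.E × Bool)) with
            (if a.2 then Γ.src a.1 else Γ.tgt a.1) = v,
            slope g a.1 (if a.2 then 0 else Γ.len a.1) a.2 := by
        refine Finset.sum_congr rfl fun v _ => ?_
        unfold div
        simp only [dirs, par]
      rw [e0', e0, Fintype.sum_prod_type]
      refine Finset.sum_congr rfl fun e _ => ?_
      rw [Fintype.sum_bool]
      simp
    have e2 : ∑ x ∈ S2, div g x =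
        ∑ e : Γ.E, ∑ t ∈ F e, (slope g e t true + slope g e t false) := by
      rw [Finset.sum_image, Finset.sum_sigma]
      · refine Finset.sum_congr rfl fun e _ => Finset.sum_congr rfl fun t ht => ?_
        exact div_inner g e (Finset.mem_filter.1 ht).2
      · rintro ⟨e, t⟩ hp ⟨e', t'⟩ hp' h
        have h1 := hF _ hp
        have h2 := hF _ hp'
        simp only at h h1 h2
        rw [pt_of_mem e h1, pt_of_mem e' h2] at h
        simp only [Pt.inner.injEq] at h
        obtain ⟨rfl, rfl⟩ := h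
        rfl
    rw [e1, e2, ← Finset.sum_add_distrib]
    refine Finset.sum_eq_zero fun e _ => ?_
    have hl := Γ.len_pos e
    have h3 := (hg.loc e).sum hl (fun t ht => ⟨slope_lt _ ht, slope_lt _ ht⟩)
      (fun t ht => ⟨slope_gt _ ht, slope_gt _ ht⟩) (insert 0 (insert (Γ.len e) (F e))) (by
        intro t ht
        rcases lt_trichotomy t 0 with h | h | h
        · exact absurd (by rw [slope_lt _ h, slope_lt _ h]; rfl) ht
        · simp [h]
        · rcases lt_trichotomy t (Γ.len e) with h' | h' | h'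
          · have : t ∈ F e := Finset.mem_filter.2 ⟨by rw [Set.Finite.mem_toFinset]; exact ht, h, h'⟩
            simp [this]
          · simp [h']
          · exact absurd (by rw [slope_gt _ h', slope_gt _ h']; rfl) ht)
    have h0 : (0 : ℝ) ∉ insert (Γ.len e) (F e) := by
      rw [Finset.mem_insert]
      rintro (h | h)
      · linarith
      · exact absurd (Finset.mem_filter.1 h).2.1 (lt_irrefl _)
    have h1 : Γ.len e ∉ F e := fun h => absurd (Finset.mem_filter.1 h).2.2 (lt_irrefl _)
    rw [Finset.sum_insert h0, Finset.sum_insert h1] at h3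
    rw [(hasSlope_zero_false (g := g) (e := e)).slope_eq,
      (hasSlope_len_true (g := g) (e := e)).slope_eq] at h3
    linarith

theorem IsRational.sum_div {g : Γ.Pt → ℝ} (hg : IsRational g) (S : Finset Γ.Pt)
    (hS : ∀ x, div g x ≠ 0 → x ∈ S) : ∑ x ∈ S, div g x = 0 := by
  classical
  obtain ⟨S0, h0, h1⟩ := hg.exists_support
  have e1 : ∑ x ∈ S, div g x = ∑ x ∈ S ∪ S0, div g x :=
    Finset.sum_subset Finset.subset_union_left fun x _ hx => by
      by_contra hc
      exact hx (hS x hc)
  have e2 : ∑ x ∈ S0, div g x = ∑ x ∈ S ∪ S0, div g x :=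
    Finset.sum_subset Finset.subset_union_right fun x _ hx => by
      by_contra hc
      exact hx (h0 x hc)
  rw [e1, ← e2, h1]

/-- the sum of the absolute values of the slopes -/
noncomputable def nn (g : Γ.Pt → ℝ) (x : Γ.Pt) : ℤ :=
  ∑ a ∈ dirs x, |slope g a.1 (par x a) a.2|

lemma nn_nonneg (g : Γ.Pt → ℝ) (x : Γ.Pt) : 0 ≤ nn g x :=
  Finset.sum_nonneg fun _ _ => abs_nonneg _

lemma abs_div_le (g : Γ.Pt → ℝ) (x : Γ.Pt) : |div g x| ≤ nn g x :=
  Finset.abs_sum_le_sum_abs _ _

lemma two_dvd (g : Γ.Pt → ℝ) (x : Γ.Pt) : (2 : ℤ) ∣ nn g x - div g x := by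
  unfold nn div
  rw [← Finset.sum_sub_distrib]
  refine Finset.dvd_sum fun a _ => ?_
  rcases abs_choice (slope g a.1 (par x a) a.2) with h | h
  · rw [h]; simp
  · rw [h]; exact ⟨- slope g a.1 (par x a) a.2, by ring⟩

lemma div_abs {g : Γ.Pt → ℝ} (hg : IsRational g) (x : Γ.Pt) :
    div (fun x => |g x|) x = if 0 < g x then div g x else if g x < 0 then - div g x else nn g x := by
  have h1 : ∀ a ∈ dirs x, slope (fun x => |g x|) a.1 (par x a) a.2 =
      if 0 < g x then slope g a.1 (par x a) a.2 else if g x < 0 then - slope g a.1 (par x a) a.2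
      else |slope g a.1 (par x a) a.2| := by
    intro a ha
    have := (hg.hasSlope a.1 (par x a) a.2).abs.slope_eq
    rw [pt_par ha] at this
    exact this
  unfold div nn
  rw [Finset.sum_congr rfl h1]
  split_ifs
  · rfl
  · rw [Finset.sum_neg_distrib]
  · rfl

/-- a function with all slopes zero is locally constant -/
lemma isOpen_eq_of_nn {g : Γ.Pt → ℝ} (hg : IsRational g) (A : Set Γ.Pt) (hA : IsClosed A) (c : ℝ)
    (h : ∀ x, g x = c → x ∉ A → nn g x = 0) : IsOpen ({x | g x = c} \ A) := by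
  rw [isOpen_iff]
  intro e
  rw [isOpen_iff_mem_nhds]
  rintro t ⟨ht, htA⟩
  have h1 := h _ ht htA
  have key : ∀ b, ∃ ε > 0, ∀ s, 0 ≤ s → s < ε → g (Γ.pt e (t + sg b * s)) = c := by
    intro b
    rcases dir_or (Γ := Γ) (e := e) (t := t) (b := b) with hd | ⟨ε, hε, hd⟩
    · obtain ⟨h2, h3⟩ := dir_of hd
      have h4 : slope g e t b = 0 := by
        have h5 : |slope g e t b| ≤ nn g (Γ.pt e t) := by
          unfold nn
          have := Finset.single_le_sum (f := fun a => |slope g a.1 (par (Γ.pt e t) a) a.2|)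
            (fun a _ => abs_nonneg _) h2
          simp only [h3] at this
          exact this
        rw [h1] at h5
        exact abs_eq_zero.1 (le_antisymm h5 (abs_nonneg _))
      obtain ⟨ε, hε, h6⟩ := hg.hasSlope e t b
      refine ⟨ε, hε, fun s h7 h8 => ?_⟩
      rw [h6 s h7 h8, h4, ht]
      simp
    · refine ⟨ε, hε, fun s h7 h8 => ?_⟩
      rw [hd s h7 h8]
      exact ht
  obtain ⟨ε, hε, hr⟩ := key true
  obtain ⟨ε', hε', hl⟩ := key false
  have hAo : {t : ℝ | Γ.pt e t ∈ Aᶜ} ∈ 𝓝 t :=
    (((isOpen_iff _).1 hA.isOpen_compl) e).mem_nhds htA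
  filter_upwards [Ioo_mem_nhds (show t - ε' < t by linarith) (show t < t + ε by linarith), hAo]
    with t' ht' hA'
  refine ⟨?_, hA'⟩
  show g (Γ.pt e t') = c
  rcases le_total t t' with h2 | h2
  · have := hr (t' - t) (by linarith) (by linarith [ht'.2])
    rwa [sg_true, one_mul, show t + (t' - t) = t' by ring] at this
  · have := hl (t - t') (by linarith) (by linarith [ht'.1])
    rwa [sg_false, show t + -1 * (t - t') = t' by ring] at this

/-- the key identity for `|g|` -/
theorem sum_abs {g : Γ.Pt → ℝ} (hg : IsRational g) (S : Finset Γ.Pt)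
    (hS : ∀ x, div g x ≠ 0 → x ∈ S) (hS' : ∀ x, g x = 0 → nn g x ≠ 0 → x ∈ S) :
    ∑ x ∈ S, (if g x = 0 then nn g x else 0) =
      - ∑ x ∈ S, (if 0 < g x then div g x else if g x < 0 then - div g x else 0) := by
  have h1 := hg.abs.sum_div S (by
    intro x hx
    rw [div_abs hg] at hx
    split_ifs at hx with h1 h2
    · exact hS x hx
    · exact hS x (by simpa using hx)
    · exact hS' x (le_antisymm (not_lt.1 h1) (not_lt.1 h2)) hx)
  rw [eq_neg_iff_add_eq_zero, ← Finset.sum_add_distrib]
  refine (Finset.sum_congr rfl fun x _ => ?_).trans h1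
  rw [div_abs hg]
  rcases lt_trichotomy (g x) 0 with h | h | h
  · simp [h.ne, h, not_lt.2 h.le]
  · simp [h]
  · simp [h, h.ne']

theorem exists_support' {g : Γ.Pt → ℝ} (hg : IsRational g) :
    ∃ S : Finset Γ.Pt, (∀ x, div g x ≠ 0 → x ∈ S) ∧ (∀ x, g x = 0 → nn g x ≠ 0 → x ∈ S) := by
  classical
  obtain ⟨S, h1, -⟩ := hg.exists_support
  obtain ⟨S', h2, -⟩ := hg.abs.exists_support
  refine ⟨S ∪ S', fun x hx => Finset.mem_union_left _ (h1 x hx),
    fun x hx hx' => Finset.mem_union_right _ (h2 x ?_)⟩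
  rw [div_abs hg, hx]
  simpa using hx'

/-- harmonic functions on connected graphs are constant -/
theorem const_of_div_zero [PreconnectedSpace Γ.Pt] {g : Γ.Pt → ℝ} (hg : IsRational g)
    (h : ∀ x, div g x = 0) (x y : Γ.Pt) : g x = g y := by
  have hn : ∀ c x, g x = c → nn g x = 0 := by
    intro c x hx
    have h1 := hg.add_const (-c)
    have hsl : ∀ e t b, slope (fun x => g x + -c) e t b = slope g e t b := fun e t b =>
      ((hg.hasSlope e t b).add_const (-c)).slope_eq
    have hdiv : ∀ x, div (fun x => g x + -c) x = 0 := by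
      intro x
      have : div (fun x => g x + -c) x = div g x := by
        unfold div
        simp only [hsl]
      rw [this, h]
    have hnn : ∀ x, nn (fun x => g x + -c) x = nn g x := by
      intro x
      unfold nn
      simp only [hsl]
    obtain ⟨S, h2, h3⟩ := exists_support' h1
    have h4 := sum_abs h1 S h2 h3
    simp only [hdiv, neg_zero, ite_self, Finset.sum_const_zero, hnn] at h4
    by_contra hc
    have h5 : x ∈ S := h3 x (by simp [hx]) (by rwa [hnn])
    have h6 := (Finset.sum_eq_zero_iff_of_nonneg (fun x _ => by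
      split_ifs
      · exact nn_nonneg g x
      · exact le_rfl)).1 h4 x h5
    rw [if_pos (by rw [hx]; ring)] at h6
    exact hc h6
  have hloc : IsLocallyConstant g := by
    rw [IsLocallyConstant.iff_isOpen_fiber]
    intro c
    have := isOpen_eq_of_nn hg ∅ isClosed_empty c (fun x hx _ => hn c x hx)
    simpa [Set.preimage] using this
  exact hloc.apply_eq_of_isPreconnected isPreconnected_univ (mem_univ _) (mem_univ _)

end MetricGraph

end Pool.Agent.R866.AP
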