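import Pool.Agent.R866.AP.Defs

/-!
# One edge: a locally affine function on the line, constant near both ends
-/

set_option autoImplicit false
set_option linter.all false

open Filter Topology Set

namespace Pool.Agent.R866.AP

/-- local data -/
def Loc (G : ℝ → ℝ) (R L : ℝ → ℤ) : Prop :=
  ∀ t, ∃ ε > 0, ∀ s, 0 ≤ s → s < ε → G (t + s) = G t + R t * s ∧ G (t - s) = G t + L t * s

lemma Loc.right {G : ℝ → ℝ} {R L : ℝ → ℤ} (h : Loc G R L) (t : ℝ) :
    ∃ ε > 0, ∀ t', t < t' → t' < t + ε → R t' = R t ∧ L t' = - R t := by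
  obtain ⟨ε, hε, h1⟩ := h t
  refine ⟨ε, hε, fun t' h2 h3 => ?_⟩
  obtain ⟨ε', hε', h4⟩ := h t'
  set s := min (min ε' (t + ε - t')) (t' - t) / 2 with hs
  have a1 : 0 < min (min ε' (t + ε - t')) (t' - t) := by
    apply lt_min (lt_min hε' _) _ <;> linarith
  have a2 : min (min ε' (t + ε - t')) (t' - t) ≤ ε' := (min_le_left _ _).trans (min_le_left _ _)
  have a3 : min (min ε' (t + ε - t')) (t' - t) ≤ t + ε - t' :=
    (min_le_left _ _).trans (min_le_right _ _)
  have a4 : min (min ε' (t + ε - t')) (t' - t) ≤ t' - t := min_le_right _ _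
  have s0 : 0 < s := by positivity
  have b1 := h4 s s0.le (by linarith)
  have b2 := (h1 (t' - t + s) (by linarith) (by linarith)).1
  have b3 := (h1 (t' - t - s) (by linarith) (by linarith)).1
  have b4 := (h1 (t' - t) (by linarith) (by linarith)).1
  have e1 : t + (t' - t + s) = t' + s := by ring
  have e2 : t + (t' - t - s) = t' - s := by ring
  have e3 : t + (t' - t) = t' := by ring
  rw [e1, b1.1] at b2
  rw [e2, b1.2] at b3
  rw [e3] at b4
  constructor
  · have : ((R t' : ℤ) : ℝ) * s = R t * s := by linarith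
    have := mul_right_cancel₀ s0.ne' this
    exact_mod_cast this
  · have : ((L t' : ℤ) : ℝ) * s = (- R t : ℝ) * s := by linarith
    have := mul_right_cancel₀ s0.ne' this
    exact_mod_cast this

lemma Loc.neg {G : ℝ → ℝ} {R L : ℝ → ℤ} (h : Loc G R L) :
    Loc (fun t => G (-t)) (fun t => L (-t)) (fun t => R (-t)) := by
  intro t
  obtain ⟨ε, hε, h1⟩ := h (-t)
  refine ⟨ε, hε, fun s h2 h3 => ?_⟩
  have := h1 s h2 h3
  constructor
  · beta_reduce; rw [show -(t + s) = -t - s by ring]; exact this.2
  · beta_reduce; rw [show -(t - s) = -t + s by ring]; exact this.1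

lemma Loc.left {G : ℝ → ℝ} {R L : ℝ → ℤ} (h : Loc G R L) (t : ℝ) :
    ∃ ε > 0, ∀ t', t - ε < t' → t' < t → R t' = - L t ∧ L t' = L t := by
  obtain ⟨ε, hε, h1⟩ := h.neg.right (-t)
  refine ⟨ε, hε, fun t' h2 h3 => ?_⟩
  have := h1 (-t') (by linarith) (by linarith)
  simp only [neg_neg] at this
  exact ⟨this.2, this.1⟩

lemma Loc.finite {G : ℝ → ℝ} {R L : ℝ → ℤ} (h : Loc G R L) {ℓ : ℝ}
    (h0 : ∀ t, t < 0 → R t = 0 ∧ L t = 0) (h1 : ∀ t, ℓ < t → R t = 0 ∧ L t = 0) :
    {t | R t + L t ≠ 0}.Finite := by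
  by_contra hinf
  have hsub : {t | R t + L t ≠ 0} ⊆ Icc 0 ℓ := by
    intro t ht
    constructor
    · by_contra hc
      push Not at hc
      exact ht (by rw [(h0 t hc).1, (h0 t hc).2]; rfl)
    · by_contra hc
      push Not at hc
      exact ht (by rw [(h1 t hc).1, (h1 t hc).2]; rfl)
  obtain ⟨x, -, hx⟩ := Set.Infinite.exists_accPt_of_subset_isCompact hinf isCompact_Icc hsub
  obtain ⟨ε, hε, hr⟩ := h.right x
  obtain ⟨ε', hε', hl⟩ := h.left x
  rw [accPt_iff_frequently] at hx
  apply hx
  have : Ioo (x - ε') (x + ε) ∈ 𝓝 x := Ioo_mem_nhds (by linarith) (by linarith)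
  filter_upwards [this] with t ht
  rintro ⟨hne, hJ⟩
  rcases lt_or_gt_of_ne hne with h2 | h2
  · have := hl t ht.1 h2
    exact hJ (by rw [this.1, this.2]; ring)
  · have := hr t h2 ht.2
    exact hJ (by rw [this.1, this.2]; ring)

lemma Loc.sum {G : ℝ → ℝ} {R L : ℝ → ℤ} (h : Loc G R L) {ℓ : ℝ} (hℓ : 0 < ℓ)
    (h0 : ∀ t, t < 0 → R t = 0 ∧ L t = 0) (h1 : ∀ t, ℓ < t → R t = 0 ∧ L t = 0)
    (S : Finset ℝ) (hS : ∀ t, R t + L t ≠ 0 → t ∈ S) :
    ∑ t ∈ S, (R t + L t) = 0 := by
  classical
  let Φ : ℝ → ℤ := fun b => ∑ t ∈ S with t < b, (R t + L t) + L b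
  have hloc : IsLocallyConstant Φ := by
    rw [IsLocallyConstant.iff_eventually_eq]
    intro b
    obtain ⟨ε, hε, hr⟩ := h.right b
    obtain ⟨ε', hε', hl⟩ := h.left b
    have : Ioo (b - ε') (b + ε) ∈ 𝓝 b := Ioo_mem_nhds (by linarith) (by linarith)
    filter_upwards [this] with b' hb'
    rcases lt_trichotomy b' b with h2 | h2 | h2
    · have e1 := hl b' hb'.1 h2
      show ∑ t ∈ S with t < b', (R t + L t) + L b' = ∑ t ∈ S with t < b, (R t + L t) + L b
      rw [e1.2]
      congr 1
      apply Finset.sum_subset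
      · intro t ht
        rw [Finset.mem_filter] at ht ⊢
        exact ⟨ht.1, ht.2.trans h2⟩
      · intro t ht ht'
        rw [Finset.mem_filter] at ht ht'
        have h3 : b' ≤ t := by
          by_contra hc
          exact ht' ⟨ht.1, not_le.1 hc⟩
        have := hl t (by linarith [hb'.1]) ht.2
        rw [this.1, this.2]; ring
    · rw [h2]
    · have e1 := hr b' h2 hb'.2
      show ∑ t ∈ S with t < b', (R t + L t) + L b' = ∑ t ∈ S with t < b, (R t + L t) + L b
      rw [e1.2]
      have e2 : ∑ t ∈ S with t < b', (R t + L t) = ∑ t ∈ S with t < b, (R t + L t) + (R b + L b) := by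
        have e3 : ∑ t ∈ S with t < b', (R t + L t) = ∑ t ∈ S with t ≤ b, (R t + L t) := by
          symm
          apply Finset.sum_subset
          · intro t ht
            rw [Finset.mem_filter] at ht ⊢
            exact ⟨ht.1, ht.2.trans_lt h2⟩
          · intro t ht ht'
            rw [Finset.mem_filter] at ht ht'
            have h3 : b < t := by
              by_contra hc
              exact ht' ⟨ht.1, not_lt.1 hc⟩
            have := hr t h3 (by linarith [hb'.2, ht.2])
            rw [this.1, this.2]; ring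
        rw [e3]
        by_cases hb : b ∈ S
        · have : (S.filter fun t => t ≤ b) = insert b (S.filter fun t => t < b) := by
            ext t
            simp only [Finset.mem_filter, Finset.mem_insert]
            constructor
            · rintro ⟨h3, h4⟩
              rcases h4.lt_or_eq with h5 | h5
              · exact Or.inr ⟨h3, h5⟩
              · exact Or.inl h5
            · rintro (rfl | ⟨h3, h4⟩)
              · exact ⟨hb, le_rfl⟩
              · exact ⟨h3, h4.le⟩
          rw [this, Finset.sum_insert (by simp), add_comm]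
        · have : R b + L b = 0 := by
            by_contra hc
            exact hb (hS b hc)
          rw [this, add_zero]
          congr 1
          ext t
          simp only [Finset.mem_filter]
          constructor
          · rintro ⟨h3, h4⟩
            refine ⟨h3, lt_of_le_of_ne h4 ?_⟩
            rintro rfl
            exact hb h3
          · rintro ⟨h3, h4⟩
            exact ⟨h3, h4.le⟩
      rw [e2]
      ring
  have hconst : ∀ a b, Φ a = Φ b := fun a b =>
    hloc.apply_eq_of_isPreconnected isPreconnected_univ (mem_univ _) (mem_univ _)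
  have hlo : Φ (-1) = 0 := by
    show ∑ t ∈ S with t < -1, (R t + L t) + L (-1) = 0
    rw [(h0 (-1) (by norm_num)).2, add_zero]
    apply Finset.sum_eq_zero
    intro t ht
    rw [Finset.mem_filter] at ht
    have := h0 t (by linarith [ht.2])
    rw [this.1, this.2]; rfl
  have hM : ∃ M, ℓ < M ∧ ∀ t ∈ S, t < M := by
    obtain ⟨M, hM⟩ := S.finite_toSet.bddAbove
    refine ⟨max M ℓ + 1, by linarith [le_max_right M ℓ], fun t ht => ?_⟩
    have := hM ht
    linarith [le_max_left M ℓ]
  obtain ⟨M, hM1, hM2⟩ := hM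
  have hhi : Φ M = ∑ t ∈ S, (R t + L t) := by
    show ∑ t ∈ S with t < M, (R t + L t) + L M = _
    rw [(h1 M hM1).2, add_zero, Finset.filter_true_of_mem hM2]
  rw [← hhi, hconst M (-1), hlo]

end Pool.Agent.R866.AP
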