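import Pool.Agent.R866.AP.Zero

/-!
# The structure near the zero set, and the infinite fibre
-/

set_option autoImplicit false
set_option linter.all false

open Filter Topology Set

namespace Pool.Agent.R866.AP

open MetricGraph

variable {Γ' Γ : MetricGraph} {π : FreeDoubleCover Γ' Γ} {p q : Γ'.Pt}

lemma mem_dirs_iff {x : Γ'.Pt} {a : Γ'.E × Bool} (h : a ∈ dirs x) :
    (a.2 = true ∧ 0 ≤ par x a ∧ par x a < Γ'.len a.1) ∨
      (a.2 = false ∧ 0 < par x a ∧ par x a ≤ Γ'.len a.1) := by
  obtain ⟨e, b⟩ := a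
  have := Γ'.len_pos e
  rcases x with v | ⟨e', t, h0, h1⟩
  · cases b
    · right; simp [par]; exact this
    · left; simp [par]; exact this
  · simp only [dirs, Finset.mem_insert, Finset.mem_singleton, Prod.mk.injEq] at h
    rcases h with ⟨rfl, rfl⟩ | ⟨rfl, rfl⟩
    · left; exact ⟨rfl, h0.le, h1⟩
    · right; exact ⟨rfl, h0, h1.le⟩

/-- moving from a point in a direction one gets interior points -/
lemma exists_inner {x : Γ'.Pt} {a : Γ'.E × Bool} (h : a ∈ dirs x) :
    ∃ ε > 0, ∀ s, 0 < s → s < ε →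
      0 < par x a + sg a.2 * s ∧ par x a + sg a.2 * s < Γ'.len a.1 := by
  rcases mem_dirs_iff h with ⟨h1, h2, h3⟩ | ⟨h1, h2, h3⟩
  · refine ⟨Γ'.len a.1 - par x a, by linarith, fun s h4 h5 => ?_⟩
    rw [h1, sg_true]
    constructor <;> linarith
  · refine ⟨par x a, h2, fun s h4 h5 => ?_⟩
    rw [h1, sg_false]
    constructor <;> linarith

lemma pt_inj {e e' : Γ'.E} {t t' : ℝ} (h : 0 < t' ∧ t' < Γ'.len e')
    (heq : Γ'.pt e t = Γ'.pt e' t') : e = e' ∧ t = t' := by
  rw [pt_of_mem e' h] at heq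
  rcases le_or_gt t 0 with h2 | h2
  · rw [pt_of_le e h2] at heq; simp at heq
  · rcases le_or_gt (Γ'.len e) t with h' | h'
    · rw [pt_of_ge e h'] at heq; simp at heq
    · rw [pt_of_mem e ⟨h2, h'⟩] at heq
      simpa using heq

namespace Anti

variable (A : Anti π p q)

lemma slope_ne (u : Γ'.Pt) (hu : A.f u = 0) (hz : ∀ x, A.f x = 0 → x = u ∨ x = π.iota u)
    {a : Γ'.E × Bool} (ha : a ∈ dirs u) : slope A.f a.1 (par u a) a.2 ≠ 0 := by
  intro h0
  obtain ⟨ε, hε, h1⟩ := A.rat.hasSlope a.1 (par u a) a.2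
  obtain ⟨ε', hε', h2⟩ := exists_inner ha
  rw [h0, pt_par ha, hu] at h1
  set δ := min ε ε' with hδ
  have δ0 : 0 < δ := lt_min hε hε'
  have e1 : δ ≤ ε := min_le_left _ _
  have e2 : δ ≤ ε' := min_le_right _ _
  have key : ∀ s, 0 < s → s < δ → Γ'.pt a.1 (par u a + sg a.2 * s) = u ∨
      Γ'.pt a.1 (par u a + sg a.2 * s) = π.iota u := by
    intro s hs hs'
    apply hz
    rw [h1 s hs.le (by linarith)]
    simp
  have inj : ∀ s s', 0 < s → s < δ → 0 < s' → s' < δ →
      Γ'.pt a.1 (par u a + sg a.2 * s) = Γ'.pt a.1 (par u a + sg a.2 * s') → s = s' := by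
    intro s s' h3 h4 h5 h6 h7
    have := (pt_inj (h2 s' h5 (by linarith)) h7).2
    have : sg a.2 * s = sg a.2 * s' := by linarith
    exact mul_left_cancel₀ (sg_ne _) this
  have k1 := key (δ / 2) (by linarith) (by linarith)
  have k2 := key (δ / 3) (by linarith) (by linarith)
  have k3 := key (δ / 4) (by linarith) (by linarith)
  have i1 := inj (δ / 2) (δ / 3) (by linarith) (by linarith) (by linarith) (by linarith)
  have i2 := inj (δ / 2) (δ / 4) (by linarith) (by linarith) (by linarith) (by linarith)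
  have i3 := inj (δ / 3) (δ / 4) (by linarith) (by linarith) (by linarith) (by linarith)
  rcases k1 with k1 | k1 <;> rcases k2 with k2 | k2 <;> rcases k3 with k3 | k3
  · have := i1 (k1.trans k2.symm); linarith
  · have := i1 (k1.trans k2.symm); linarith
  · have := i2 (k1.trans k3.symm); linarith
  · have := i3 (k2.trans k3.symm); linarith
  · have := i3 (k2.trans k3.symm); linarith
  · have := i2 (k1.trans k3.symm); linarith
  · have := i1 (k1.trans k2.symm); linarith
  · have := i1 (k1.trans k2.symm); linarith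

lemma iota_zero {u : Γ'.Pt} (hu : A.f u = 0) : A.f (π.iota u) = 0 := by
  rw [A.anti, hu, neg_zero]

/-- the set `{f > 0} ∪ {v}` is open if all slopes at `v` are positive -/
lemma open_aux (σ : ℝ) (hσ : σ = 1 ∨ σ = -1) (v : Γ'.Pt) (hv : A.f v = 0)
    (h : ∀ a ∈ dirs v, 0 < σ * slope A.f a.1 (par v a) a.2) :
    IsOpen ({x | 0 < σ * A.f x} ∪ {v}) := by
  rw [MetricGraph.isOpen_iff]
  intro e
  rw [isOpen_iff_mem_nhds]
  intro t ht
  have hcont : Continuous fun x => σ * A.f x := continuous_const.mul A.cont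
  rcases ht with ht | ht
  · have ho : IsOpen {x | 0 < σ * A.f x} := isOpen_lt continuous_const hcont
    have := (((MetricGraph.isOpen_iff _).1 ho) e).mem_nhds ht
    filter_upwards [this] with t' ht'
    exact Or.inl ht'
  · rw [mem_singleton_iff] at ht
    have key : ∀ b, ∃ ε > 0, ∀ s, 0 ≤ s → s < ε →
        Γ'.pt e (t + sg b * s) ∈ ({x | 0 < σ * A.f x} ∪ {v} : Set Γ'.Pt) := by
      intro b
      rcases dir_or (Γ := Γ') (e := e) (t := t) (b := b) with hd | ⟨ε, hε, hd⟩
      · obtain ⟨h2, h3⟩ := dir_of hd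
        rw [ht] at h2 h3
        have h4 := h _ h2
        rw [h3] at h4
        obtain ⟨ε, hε, h6⟩ := A.rat.hasSlope e t b
        refine ⟨ε, hε, fun s h7 h8 => ?_⟩
        rcases h7.eq_or_lt with h7 | h7
        · right
          rw [← h7, mul_zero, add_zero, ht]; rfl
        · left
          show 0 < σ * A.f (Γ'.pt e (t + sg b * s))
          rw [h6 s h7.le h8, ht, hv, zero_add, ← mul_assoc]
          exact mul_pos h4 h7
      · refine ⟨ε, hε, fun s h7 h8 => ?_⟩
        right
        rw [hd s h7 h8, ht]; rfl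
    obtain ⟨ε, hε, hr⟩ := key true
    obtain ⟨ε', hε', hl⟩ := key false
    filter_upwards [Ioo_mem_nhds (show t - ε' < t by linarith) (show t < t + ε by linarith)]
      with t' ht'
    rcases le_total t t' with h2 | h2
    · have := hr (t' - t) (by linarith) (by linarith [ht'.2])
      rwa [sg_true, one_mul, show t + (t' - t) = t' by ring] at this
    · have := hl (t - t') (by linarith) (by linarith [ht'.1])
      rwa [sg_false, show t + -1 * (t - t') = t' by ring] at this

lemma not_all_pos [PreconnectedSpace Γ'.Pt] (v : Γ'.Pt) (hv : A.f v = 0)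
    (hz : ∀ x, A.f x = 0 → x = v ∨ x = π.iota v)
    (h : ∀ a ∈ dirs v, 0 < slope A.f a.1 (par v a) a.2) : False := by
  have o1 := A.open_aux 1 (Or.inl rfl) v hv (fun a ha => by
    have := h a ha
    rw [one_mul]; exact_mod_cast this)
  have o2 := A.open_aux (-1) (Or.inr rfl) (π.iota v) (A.iota_zero hv) (fun a ha => by
    have h1 := π.mem_dirs_iota ha
    rw [π.iota_iota] at h1
    have h2 := h _ h1
    have h3 := π.par_iota (π.iota v) a
    rw [π.iota_iota] at h3
    rw [h3, A.slope_iota] at h2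
    have : (0 : ℝ) < ((- slope A.f a.1 (par (π.iota v) a) a.2 : ℤ) : ℝ) := by exact_mod_cast h2
    push_cast at this
    linarith)
  have hcov : (univ : Set Γ'.Pt) ⊆ ({x | 0 < 1 * A.f x} ∪ {v}) ∪
      ({x | 0 < -1 * A.f x} ∪ {π.iota v}) := by
    intro x _
    rcases lt_trichotomy (A.f x) 0 with h1 | h1 | h1
    · right; left
      show 0 < -1 * A.f x
      linarith
    · rcases hz x h1 with h2 | h2
      · left; right; exact h2
      · right; right; exact h2
    · left; left
      show 0 < 1 * A.f x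
      linarith
  obtain ⟨x, -, hx, hx'⟩ := isPreconnected_univ _ _ o1 o2 hcov ⟨v, trivial, Or.inr rfl⟩
    ⟨π.iota v, trivial, Or.inr rfl⟩
  rcases hx with hx | hx <;> rcases hx' with hx' | hx'
  · have a1 : 0 < 1 * A.f x := hx
    have a2 : 0 < -1 * A.f x := hx'
    linarith
  · rw [mem_singleton_iff] at hx'
    have a1 : 0 < 1 * A.f x := hx
    rw [hx', A.iota_zero hv] at a1
    linarith
  · rw [mem_singleton_iff] at hx
    have a2 : 0 < -1 * A.f x := hx'
    rw [hx, hv] at a2
    linarith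
  · rw [mem_singleton_iff] at hx hx'
    exact π.iota_ne v (hx'.symm.trans hx)

/-- Step E: exactly two directions at `u`, with slopes `1` and `-1` -/
lemma exists_dirs [PreconnectedSpace Γ'.Pt] (u : Γ'.Pt) (hu : A.f u = 0)
    (hz : ∀ x, A.f x = 0 → x = u ∨ x = π.iota u) (hn : nn A.f u ≤ 2) :
    ∃ a a', a ∈ dirs u ∧ slope A.f a.1 (par u a) a.2 = 1 ∧ a' ∈ dirs u ∧
      slope A.f a'.1 (par u a') a'.2 = -1 ∧ ∀ c ∈ dirs u, c = a ∨ c = a' := by
  classical
  have h1 : ∃ a ∈ dirs u, slope A.f a.1 (par u a) a.2 < 0 := by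
    by_contra hc
    push Not at hc
    refine A.not_all_pos u hu hz fun a ha => lt_of_le_of_ne (hc a ha) (A.slope_ne u hu hz ha).symm
  have h2 : ∃ a ∈ dirs u, 0 < slope A.f a.1 (par u a) a.2 := by
    by_contra hc
    push Not at hc
    refine A.not_all_pos (π.iota u) (A.iota_zero hu) ?_ fun a ha => ?_
    · intro x hx
      rw [π.iota_iota]
      exact (hz x hx).symm
    · have h1 := π.mem_dirs_iota ha
      rw [π.iota_iota] at h1
      have h3 := π.par_iota (π.iota u) a
      rw [π.iota_iota] at h3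
      have h4 := hc _ h1
      have h5 := A.slope_ne u hu hz h1
      rw [h3, A.slope_iota] at h4 h5
      have h6 : slope A.f a.1 (par (π.iota u) a) a.2 ≠ 0 := fun h => h5 (by rw [h]; rfl)
      have h7 : 0 ≤ slope A.f a.1 (par (π.iota u) a) a.2 := by linarith
      exact lt_of_le_of_ne h7 h6.symm
  obtain ⟨a', ha', hs'⟩ := h1
  obtain ⟨a, ha, hs⟩ := h2
  have hne : a ≠ a' := by
    rintro rfl
    linarith
  have habs : ∀ c ∈ dirs u, 1 ≤ |slope A.f c.1 (par u c) c.2| := fun c hc =>
    Int.one_le_abs (A.slope_ne u hu hz hc)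
  have hsub : ({a, a'} : Finset (Γ'.E × Bool)) ⊆ dirs u := by
    intro c hc
    simp only [Finset.mem_insert, Finset.mem_singleton] at hc
    rcases hc with rfl | rfl <;> assumption
  have h3 := Finset.sum_le_sum_of_subset_of_nonneg hsub
    (f := fun c => |slope A.f c.1 (par u c) c.2|) (fun c _ _ => abs_nonneg _)
  rw [Finset.sum_pair hne] at h3
  have h4 : |slope A.f a.1 (par u a) a.2| + |slope A.f a'.1 (par u a') a'.2| ≤ 2 := h3.trans hn
  rw [abs_of_pos hs, abs_of_neg hs'] at h4
  refine ⟨a, a', ha, by omega, ha', by omega, fun c hc => ?_⟩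
  by_contra hcon
  push Not at hcon
  have hsub' : ({c, a, a'} : Finset (Γ'.E × Bool)) ⊆ dirs u := by
    intro d hd
    simp only [Finset.mem_insert, Finset.mem_singleton] at hd
    rcases hd with rfl | rfl | rfl <;> assumption
  have h5 := Finset.sum_le_sum_of_subset_of_nonneg hsub'
    (f := fun c => |slope A.f c.1 (par u c) c.2|) (fun c _ _ => abs_nonneg _)
  rw [Finset.sum_insert (by simp [hcon.1, hcon.2]), Finset.sum_pair hne] at h5
  have h6 : |slope A.f c.1 (par u c) c.2| + (|slope A.f a.1 (par u a) a.2| +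
    |slope A.f a'.1 (par u a') a'.2|) ≤ 2 := h5.trans hn
  have := habs c hc
  have := habs a ha
  have := habs a' ha'
  omega

end Anti

end Pool.Agent.R866.AP
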