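import Pool.Agent.R866.AP.Fam

/-!
# The main theorem
-/

set_option autoImplicit false
set_option linter.all false

open Filter Topology Set

namespace Pool.Agent.R866.AP

open MetricGraph

variable {Γ' Γ : MetricGraph} {π : FreeDoubleCover Γ' Γ} {p q : Γ'.Pt}

/-- clamp -/
noncomputable def cl (c y : ℝ) : ℝ := max 0 (min y c)

lemma cl_of_le {c y : ℝ} (hc : 0 ≤ c) (h : y ≤ 0) : cl c y = 0 := by
  unfold cl
  rw [min_eq_left (h.trans hc), max_eq_left h]

lemma cl_of_ge {c y : ℝ} (hc : 0 ≤ c) (h : c ≤ y) : cl c y = c := by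
  unfold cl
  rw [min_eq_right h, max_eq_right hc]

lemma cl_of_mem {c y : ℝ} (h0 : 0 ≤ y) (h1 : y ≤ c) : cl c y = y := by
  unfold cl
  rw [min_eq_left h1, max_eq_right h0]

/-- upward slope of the clamp -/
lemma cl_up {σ' σ τ : ℝ} (h : σ' < σ) : ∃ ε > 0, ∀ s, 0 ≤ s → s < ε →
    cl (σ - σ') (τ + s - σ') = cl (σ - σ') (τ - σ') +
      ((if σ' ≤ τ ∧ τ < σ then 1 else 0 : ℤ) : ℝ) * s := by
  by_cases h1 : σ' ≤ τ
  · by_cases h2 : τ < σ
    · rw [if_pos ⟨h1, h2⟩]
      refine ⟨σ - τ, by linarith, fun s h3 h4 => ?_⟩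
      rw [cl_of_mem (by linarith) (by linarith), cl_of_mem (by linarith) (by linarith)]
      push_cast; ring
    · rw [if_neg (fun h => h2 h.2)]
      push Not at h2
      refine ⟨1, one_pos, fun s h3 h4 => ?_⟩
      rw [cl_of_ge (by linarith) (by linarith), cl_of_ge (by linarith) (by linarith)]
      push_cast; ring
  · rw [if_neg (fun h => h1 h.1)]
    push Not at h1
    refine ⟨σ' - τ, by linarith, fun s h3 h4 => ?_⟩
    rw [cl_of_le (by linarith) (by linarith), cl_of_le (by linarith) (by linarith)]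
    push_cast; ring

lemma cl_down {σ' σ τ : ℝ} (h : σ' < σ) : ∃ ε > 0, ∀ s, 0 ≤ s → s < ε →
    cl (σ - σ') (τ - s - σ') = cl (σ - σ') (τ - σ') +
      ((if σ' < τ ∧ τ ≤ σ then -1 else 0 : ℤ) : ℝ) * s := by
  by_cases h1 : σ' < τ
  · by_cases h2 : τ ≤ σ
    · rw [if_pos ⟨h1, h2⟩]
      refine ⟨τ - σ', by linarith, fun s h3 h4 => ?_⟩
      rw [cl_of_mem (by linarith) (by linarith), cl_of_mem (by linarith) (by linarith)]
      push_cast; ring
    · rw [if_neg (fun h => h2 h.2)]
      push Not at h2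
      refine ⟨τ - σ, by linarith, fun s h3 h4 => ?_⟩
      rw [cl_of_ge (by linarith) (by linarith), cl_of_ge (by linarith) (by linarith)]
      push_cast; ring
  · rw [if_neg (fun h => h1 h.1)]
    push Not at h1
    refine ⟨1, one_pos, fun s h3 h4 => ?_⟩
    rw [cl_of_le (by linarith) (by linarith), cl_of_le (by linarith) (by linarith)]
    push_cast; ring

/-- the local picture at the zero `u`: the strand going up -/
structure Strand (A : Anti π p q) (u : Γ'.Pt) where
  hu : A.f u = 0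
  hz : ∀ x, A.f x = 0 → x = u ∨ x = π.iota u
  a : Γ'.E × Bool
  ha : a ∈ dirs u
  a' : Γ'.E × Bool
  ha' : a' ∈ dirs u
  hs' : slope A.f a'.1 (par u a') a'.2 = -1
  all : ∀ c ∈ dirs u, c = a ∨ c = a'
  ε : ℝ
  hε : 0 < ε
  inner : ∀ s, 0 < s → s < ε → 0 < par u a + sg a.2 * s ∧ par u a + sg a.2 * s < Γ'.len a.1
  val : ∀ s, 0 ≤ s → s < ε → A.f (Γ'.pt a.1 (par u a + sg a.2 * s)) = s

namespace Strand

variable {A : Anti π p q} {u : Γ'.Pt} (W : Strand A u)

/-- the points of the strand -/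
noncomputable def At (s : ℝ) : Γ'.Pt := Γ'.pt W.a.1 (par u W.a + sg W.a.2 * s)

lemma val' {s : ℝ} (h0 : 0 ≤ s) (h1 : s < W.ε) : A.f (W.At s) = s := W.val s h0 h1

/-- the open strand -/
def SA : Set Γ'.Pt := {x | ∃ τ, 0 < τ ∧ τ < W.ε ∧ x = W.At τ}

lemma At_inj {s t : ℝ} (hs0 : 0 < s) (hs : s < W.ε) (ht0 : 0 < t) (ht : t < W.ε)
    (h : W.At s = W.At t) : s = t := by
  rw [← W.val' hs0.le hs, h, W.val' ht0.le ht]

lemma eq_At {e : Γ'.E} {t τ : ℝ} (h0 : 0 < τ) (h1 : τ < W.ε) (h : Γ'.pt e t = W.At τ) :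
    e = W.a.1 ∧ t = par u W.a + sg W.a.2 * τ := pt_inj (W.inner τ h0 h1) h

open Classical in
/-- the rational function showing the linear equivalence of the classes of two points of the
strand -/
noncomputable def g (σ' σ : ℝ) (x : Γ'.Pt) : ℝ :=
  if x ∈ W.SA then cl (σ - σ') (A.f x - σ')
  else if π.iota x ∈ W.SA then (σ - σ') - cl (σ - σ') (- A.f x - σ')
  else if 0 < A.f x ∨ x = π.iota u then σ - σ' else 0

lemma pos_of_mem {x : Γ'.Pt} (h : x ∈ W.SA) : 0 < A.f x := by
  obtain ⟨τ, h0, h1, rfl⟩ := h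
  rw [W.val' h0.le h1]
  exact h0

lemma neg_of_mem {x : Γ'.Pt} (h : π.iota x ∈ W.SA) : A.f x < 0 := by
  have := W.pos_of_mem h
  rw [A.anti] at this
  linarith

lemma u_notMem : u ∉ W.SA := fun h => by
  have := W.pos_of_mem h
  rw [W.hu] at this
  exact lt_irrefl _ this

lemma iu_notMem : π.iota u ∉ W.SA := fun h => by
  have := W.neg_of_mem h
  rw [W.hu] at this
  exact lt_irrefl _ this

lemma g_iota (σ' σ : ℝ) (x : Γ'.Pt) : W.g σ' σ (π.iota x) = (σ - σ') - W.g σ' σ x := by
  unfold g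
  rw [π.iota_iota, A.anti]
  by_cases h1 : x ∈ W.SA
  · have h2 := W.pos_of_mem h1
    have h3 : π.iota x ∉ W.SA := fun h => by
      have := W.neg_of_mem h
      linarith
    rw [if_neg h3, if_pos h1, if_pos h1, neg_neg]
  · by_cases h2 : π.iota x ∈ W.SA
    · rw [if_pos h2, if_neg h1, if_pos h2]
      ring
    · rw [if_neg h2, if_neg h1, if_neg h1, if_neg h2]
      rcases lt_trichotomy (A.f x) 0 with h3 | h3 | h3
      · rw [if_pos (Or.inl (by linarith)), if_neg, sub_zero]
        rintro (h4 | rfl)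
        · linarith
        · rw [A.iota_zero W.hu] at h3
          exact lt_irrefl _ h3
      · rcases W.hz x h3 with rfl | rfl
        · rw [if_pos (Or.inr rfl), if_neg, sub_zero]
          rintro (h4 | h4)
          · rw [h3] at h4; exact lt_irrefl _ h4
          · exact π.iota_ne x h4.symm
        · rw [if_neg, if_pos (Or.inr rfl), sub_self]
          rintro (h4 | h4)
          · rw [h3, neg_zero] at h4; exact lt_irrefl _ h4
          · rw [π.iota_iota] at h4
            exact π.iota_ne u h4.symm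
      · rw [if_neg, if_pos (Or.inl h3), sub_self]
        rintro (h4 | h4)
        · linarith
        · have := π.iota_inj h4
          rw [this, W.hu] at h3
          exact lt_irrefl _ h3

/-- points near a point off the strand which lie on the strand are far up -/
lemma key {σ : ℝ} (hσ : σ < W.ε) {e : Γ'.E} {t : ℝ} (b : Bool) (h1 : Γ'.pt e t ∉ W.SA)
    (h2 : Γ'.pt e t ≠ u) : ∃ ε' > 0, ∀ s, 0 ≤ s → s < ε' → ∀ τ, 0 < τ → τ < W.ε →
      Γ'.pt e (t + sg b * s) = W.At τ → σ ≤ τ := by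
  by_cases he : e = W.a.1
  · subst he
    set y := sg W.a.2 * (t - par u W.a) with hy
    have ht : t = par u W.a + sg W.a.2 * y := by
      rw [hy, ← mul_assoc, sg_sq]; ring
    have hs : ∀ s τ, 0 < τ → τ < W.ε → Γ'.pt W.a.1 (t + sg b * s) = W.At τ →
        τ = y + sg W.a.2 * sg b * s := by
      intro s τ h3 h4 h5
      have h6 := (W.eq_At h3 h4 h5).2
      rw [ht] at h6
      have : sg W.a.2 * (sg W.a.2 * τ) = sg W.a.2 * (sg W.a.2 * y + sg b * s) := by
        congr 1
        linarith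
      rw [← mul_assoc, sg_sq, mul_add, ← mul_assoc, sg_sq] at this
      linarith
    have habs : ∀ s, 0 ≤ s → |sg W.a.2 * sg b * s| = s := by
      intro s hs0
      rw [abs_mul, abs_mul, abs_sg, abs_sg, abs_of_nonneg hs0]; ring
    rcases lt_trichotomy y 0 with h3 | h3 | h3
    · refine ⟨-y, by linarith, fun s h4 h5 τ h6 h7 h8 => ?_⟩
      have h9 := hs s τ h6 h7 h8
      have h10 := habs s h4
      have := le_abs_self (sg W.a.2 * sg b * s)
      linarith
    · exfalso
      apply h2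
      rw [ht, h3, mul_zero, add_zero, pt_par W.ha]
    · have h4 : W.ε ≤ y := by
        by_contra hc
        push Not at hc
        apply h1
        exact ⟨y, h3, hc, by rw [ht]; rfl⟩
      refine ⟨W.ε - σ, by linarith, fun s h5 h6 τ h7 h8 h9 => ?_⟩
      have h10 := hs s τ h7 h8 h9
      have h11 := habs s h5
      have := neg_abs_le (sg W.a.2 * sg b * s)
      linarith
  · refine ⟨1, one_pos, fun s _ _ τ h3 h4 h5 => ?_⟩
    exact absurd (W.eq_At h3 h4 h5).1 he

/-- a positive function stays positive -/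
lemma pos_near {e : Γ'.E} {t : ℝ} (b : Bool) (h : 0 < A.f (Γ'.pt e t)) :
    ∃ ε' > 0, ∀ s, 0 ≤ s → s < ε' → 0 < A.f (Γ'.pt e (t + sg b * s)) := by
  have hc : Continuous fun s : ℝ => A.f (Γ'.pt e (t + sg b * s)) :=
    (A.rat.continuous_edge e).comp (continuous_const.add (continuous_const.mul continuous_id))
  have ho : IsOpen {s : ℝ | 0 < A.f (Γ'.pt e (t + sg b * s))} := isOpen_lt continuous_const hc
  obtain ⟨ε', hε', h1⟩ := Metric.isOpen_iff.1 ho 0 (by simpa using h)
  refine ⟨ε', hε', fun s h2 h3 => h1 ?_⟩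
  rw [Metric.mem_ball, Real.dist_eq, sub_zero, abs_of_nonneg h2]
  exact h3

lemma slope_pos {σ' σ : ℝ} (h0 : 0 < σ') (h1 : σ' < σ) (h2 : σ < W.ε) {e : Γ'.E} {t : ℝ}
    (b : Bool) (hf : 0 < A.f (Γ'.pt e t)) (hS : Γ'.pt e t ∉ W.SA) :
    HasSlope (W.g σ' σ) e t b 0 := by
  have hne : Γ'.pt e t ≠ u := by
    intro h
    rw [h, W.hu] at hf
    exact lt_irrefl _ hf
  obtain ⟨ε₁, hε₁, k1⟩ := W.key h2 b hS hne
  obtain ⟨ε₂, hε₂, k2⟩ := pos_near b hf
  have val : ∀ s, 0 ≤ s → s < min ε₁ ε₂ → W.g σ' σ (Γ'.pt e (t + sg b * s)) = σ - σ' := by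
    intro s h3 h4
    have h5 := k2 s h3 (h4.trans_le (min_le_right _ _))
    have h6 : π.iota (Γ'.pt e (t + sg b * s)) ∉ W.SA := fun h => by
      have := W.neg_of_mem h
      linarith
    unfold g
    by_cases h7 : Γ'.pt e (t + sg b * s) ∈ W.SA
    · rw [if_pos h7]
      obtain ⟨τ, h8, h9, h10⟩ := h7
      have h11 := k1 s h3 (h4.trans_le (min_le_left _ _)) τ h8 h9 h10
      rw [h10, W.val' h8.le h9]
      exact cl_of_ge (by linarith) (by linarith)
    · rw [if_neg h7, if_neg h6, if_pos (Or.inl h5)]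
  refine ⟨min ε₁ ε₂, lt_min hε₁ hε₂, fun s h3 h4 => ?_⟩
  have h5 := val 0 le_rfl (lt_min hε₁ hε₂)
  rw [mul_zero, add_zero] at h5
  rw [val s h3 h4, h5]
  simp

lemma g_u (σ' σ : ℝ) : W.g σ' σ u = 0 := by
  unfold g
  rw [if_neg W.u_notMem, if_neg W.iu_notMem, if_neg]
  rintro (h | h)
  · rw [W.hu] at h; exact lt_irrefl _ h
  · exact π.iota_ne u h.symm

lemma slope_u {σ' σ : ℝ} (h0 : 0 < σ') (h1 : σ' < σ) (h2 : σ < W.ε) {e : Γ'.E} {t : ℝ}
    (b : Bool) (hx : Γ'.pt e t = u) : HasSlope (W.g σ' σ) e t b 0 := by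
  rcases dir_or (Γ := Γ') (e := e) (t := t) (b := b) with hd | ⟨ε, hε, hd⟩
  · obtain ⟨h3, h4⟩ := dir_of hd
    rw [hx] at h3 h4
    rcases W.all _ h3 with h5 | h5
    · refine ⟨σ', h0, fun s h6 h7 => ?_⟩
      have h8 : Γ'.pt e (t + sg b * s) = W.At s := by
        unfold At
        rw [← h5, h4]
      rw [hx, W.g_u, h8]
      rcases h6.eq_or_lt with h6 | h6
      · rw [← h6]
        unfold At
        rw [mul_zero, add_zero, pt_par W.ha, W.g_u]
        simp
      · unfold g
        rw [if_pos ⟨s, h6, by linarith, rfl⟩, W.val' h6.le (by linarith),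
          cl_of_le (by linarith) (by linarith)]
        simp
    · have h6 : slope A.f e t b = -1 := by
        have := W.hs'
        rw [← h5, h4] at this
        exact this
      obtain ⟨ε, hε, h7⟩ := A.rat.hasSlope e t b
      rw [h6, hx, W.hu] at h7
      have hi : π.iota (Γ'.pt e t) = Γ'.pt (π.ιE e) t := π.iota_pt e t
      obtain ⟨ε₁, hε₁, k1⟩ := W.key (σ := σ) h2 (e := π.ιE e) (t := t) b
        (by rw [← hi, hx]; exact W.iu_notMem) (by rw [← hi, hx]; exact π.iota_ne u)
      refine ⟨min σ (min ε ε₁), lt_min (by linarith) (lt_min hε hε₁), fun s h8 h9 => ?_⟩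
      have b1 : s < σ := h9.trans_le (min_le_left _ _)
      have b2 : s < ε := h9.trans_le ((min_le_right _ _).trans (min_le_left _ _))
      have b3 : s < ε₁ := h9.trans_le ((min_le_right _ _).trans (min_le_right _ _))
      rw [hx, W.g_u]
      rcases h8.eq_or_lt with h8 | h8
      · rw [← h8, mul_zero, add_zero, hx, W.g_u]
        simp
      · have h10 := h7 s h8.le b2
        push_cast at h10
        have n1 : Γ'.pt e (t + sg b * s) ∉ W.SA := fun h => by
          have := W.pos_of_mem h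
          linarith
        have n2 : π.iota (Γ'.pt e (t + sg b * s)) ∉ W.SA := by
          rintro ⟨τ, h11, h12, h13⟩
          have h14 : A.f (π.iota (Γ'.pt e (t + sg b * s))) = τ := by
            rw [h13, W.val' h11.le h12]
          rw [π.iota_pt] at h13
          have h15 := k1 s h8.le b3 τ h11 h12 h13
          rw [A.anti, h10] at h14
          linarith
        have n3 : ¬ (0 < A.f (Γ'.pt e (t + sg b * s)) ∨ Γ'.pt e (t + sg b * s) = π.iota u) := by
          rintro (h | h)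
          · linarith
          · rw [h, A.iota_zero W.hu] at h10
            linarith
        unfold g
        rw [if_neg n1, if_neg n2, if_neg n3]
        simp
  · refine ⟨ε, hε, fun s h3 h4 => ?_⟩
    rw [hd s h3 h4]
    simp

lemma slope_At {σ' σ : ℝ} (h0 : 0 < σ') (h1 : σ' < σ) (h2 : σ < W.ε) {τ : ℝ} (h3 : 0 < τ)
    (h4 : τ < W.ε) :
    HasSlope (W.g σ' σ) W.a.1 (par u W.a + sg W.a.2 * τ) W.a.2
      (if σ' ≤ τ ∧ τ < σ then 1 else 0) ∧
    HasSlope (W.g σ' σ) W.a.1 (par u W.a + sg W.a.2 * τ) (!W.a.2)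
      (if σ' < τ ∧ τ ≤ σ then -1 else 0) := by
  have hg : ∀ s, 0 < s → s < W.ε → W.g σ' σ (W.At s) = cl (σ - σ') (s - σ') := by
    intro s h5 h6
    unfold g
    rw [if_pos ⟨s, h5, h6, rfl⟩, W.val' h5.le h6]
  have hτ : Γ'.pt W.a.1 (par u W.a + sg W.a.2 * τ) = W.At τ := rfl
  constructor
  · obtain ⟨ε, hε, h5⟩ := cl_up (τ := τ) h1
    refine ⟨min ε (W.ε - τ), lt_min hε (by linarith), fun s h6 h7 => ?_⟩
    have b1 := h7.trans_le (min_le_left _ _)
    have b2 := h7.trans_le (min_le_right _ _)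
    have : Γ'.pt W.a.1 (par u W.a + sg W.a.2 * τ + sg W.a.2 * s) = W.At (τ + s) := by
      unfold At
      congr 1
      ring
    rw [this, hg _ (by linarith) (by linarith), hτ, hg _ h3 h4]
    exact h5 s h6 b1
  · obtain ⟨ε, hε, h5⟩ := cl_down (τ := τ) h1
    refine ⟨min ε τ, lt_min hε (by linarith), fun s h6 h7 => ?_⟩
    have b1 := h7.trans_le (min_le_left _ _)
    have b2 := h7.trans_le (min_le_right _ _)
    have : Γ'.pt W.a.1 (par u W.a + sg W.a.2 * τ + sg (!W.a.2) * s) = W.At (τ - s) := by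
      unfold At
      congr 1
      rw [sg_not]
      ring
    rw [this, hg _ (by linarith) (by linarith), hτ, hg _ h3 h4]
    exact h5 s h6 b1

/-- every direction has a slope: upper half -/
lemma exists_slope {σ' σ : ℝ} (h0 : 0 < σ') (h1 : σ' < σ) (h2 : σ < W.ε) (e : Γ'.E) (t : ℝ)
    (b : Bool) (h : 0 < A.f (Γ'.pt e t) ∨ Γ'.pt e t = u) : ∃ m, HasSlope (W.g σ' σ) e t b m := by
  rcases h with h | h
  · by_cases hS : Γ'.pt e t ∈ W.SA
    · obtain ⟨τ, h3, h4, h5⟩ := hS
      obtain ⟨rfl, rfl⟩ := W.eq_At h3 h4 h5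
      obtain ⟨k1, k2⟩ := W.slope_At h0 h1 h2 h3 h4
      by_cases hb : b = W.a.2
      · rw [hb]; exact ⟨_, k1⟩
      · have : b = !W.a.2 := by
          cases b <;> cases hh : W.a.2 <;> simp_all
        rw [this]; exact ⟨_, k2⟩
    · exact ⟨0, W.slope_pos h0 h1 h2 b h hS⟩
  · exact ⟨0, W.slope_u h0 h1 h2 b h⟩

lemma hasSlope_g_iota {σ' σ : ℝ} {e : Γ'.E} {t : ℝ} {b : Bool} {m : ℤ}
    (h : HasSlope (W.g σ' σ) (π.ιE e) t b m) : HasSlope (W.g σ' σ) e t b (-m) := by
  have h1 := (π.hasSlope_iota h).neg.add_const (σ - σ')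
  have h2 : (fun x => - W.g σ' σ (π.iota x) + (σ - σ')) = W.g σ' σ := by
    funext x
    rw [W.g_iota]
    ring
  rwa [h2] at h1

include W in
lemma upper_or (x : Γ'.Pt) : (0 < A.f x ∨ x = u) ∨ (0 < A.f (π.iota x) ∨ π.iota x = u) := by
  rcases lt_trichotomy (A.f x) 0 with h | h | h
  · right; left
    rw [A.anti]; linarith
  · rcases W.hz x h with h1 | h1
    · left; right; exact h1
    · right; right; rw [h1, π.iota_iota]
  · left; left; exact h

lemma isRational_g {σ' σ : ℝ} (h0 : 0 < σ') (h1 : σ' < σ) (h2 : σ < W.ε) :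
    IsRational (W.g σ' σ) := by
  refine isRational_of fun e t b => ?_
  rcases W.upper_or (Γ'.pt e t) with h | h
  · exact W.exists_slope h0 h1 h2 e t b h
  · rw [π.iota_pt] at h
    obtain ⟨m, hm⟩ := W.exists_slope h0 h1 h2 (π.ιE e) t b h
    exact ⟨-m, W.hasSlope_g_iota hm⟩

lemma div_upper {σ' σ : ℝ} (h0 : 0 < σ') (h1 : σ' < σ) (h2 : σ < W.ε) (x : Γ'.Pt)
    (h : 0 < A.f x ∨ x = u) :
    π.prym (W.At σ') x - π.prym (W.At σ) x = div (W.g σ' σ) x := by
  classical
  have hf : 0 ≤ A.f x := by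
    rcases h with h | h
    · exact h.le
    · rw [h, W.hu]
  have v1 : A.f (W.At σ') = σ' := W.val' h0.le (by linarith)
  have v2 : A.f (W.At σ) = σ := W.val' (by linarith) h2
  have n1 : π.iota (W.At σ') ≠ x := by
    rintro rfl
    rw [A.anti, v1] at hf
    linarith
  have n2 : π.iota (W.At σ) ≠ x := by
    rintro rfl
    rw [A.anti, v2] at hf
    linarith
  have hL : π.prym (W.At σ') x - π.prym (W.At σ) x =
      (if W.At σ' = x then 1 else 0) - (if W.At σ = x then 1 else 0) := by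
    simp only [FreeDoubleCover.prym, Finsupp.sub_apply, Finsupp.single_apply, if_neg n1,
      if_neg n2, sub_zero]
  rw [hL]
  by_cases hS : x ∈ W.SA
  · obtain ⟨τ, h3, h4, rfl⟩ := hS
    obtain ⟨k1, k2⟩ := W.slope_At h0 h1 h2 h3 h4
    have hd : div (W.g σ' σ) (W.At τ) = (if σ' ≤ τ ∧ τ < σ then 1 else 0) +
        (if σ' < τ ∧ τ ≤ σ then -1 else 0) := by
      unfold At
      rw [div_inner _ _ (W.inner τ h3 h4)]
      cases hb : W.a.2
      · rw [hb] at k1 k2
        rw [k1.slope_eq, show slope (W.g σ' σ) W.a.1 (par u W.a + sg false * τ) true = _ from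
          k2.slope_eq]
        ring
      · rw [hb] at k1 k2
        rw [k1.slope_eq, show slope (W.g σ' σ) W.a.1 (par u W.a + sg true * τ) false = _ from
          k2.slope_eq]
    rw [hd]
    have c1 : W.At σ' = W.At τ ↔ σ' = τ :=
      ⟨fun h => W.At_inj h0 (by linarith) h3 h4 h, fun h => by rw [h]⟩
    have c2 : W.At σ = W.At τ ↔ σ = τ :=
      ⟨fun h => W.At_inj (by linarith) h2 h3 h4 h, fun h => by rw [h]⟩
    simp only [c1, c2]
    rcases lt_trichotomy τ σ' with h5 | h5 | h5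
    · rw [if_neg h5.ne', if_neg (by intro h; linarith), if_neg (by rintro ⟨h, -⟩; linarith),
        if_neg (by rintro ⟨h, -⟩; linarith)]
      rfl
    · rw [if_pos h5.symm, if_neg (by intro h; linarith), if_pos ⟨h5.ge, by linarith⟩,
        if_neg (by rintro ⟨h, -⟩; linarith)]
      rfl
    · rcases lt_trichotomy τ σ with h6 | h6 | h6
      · rw [if_neg h5.ne, if_neg h6.ne', if_pos ⟨h5.le, h6⟩, if_pos ⟨h5, h6.le⟩]
        rfl
      · rw [if_neg h5.ne, if_pos h6.symm, if_neg (by rintro ⟨-, h⟩; linarith), if_pos ⟨h5, h6.le⟩]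
        rfl
      · rw [if_neg h5.ne, if_neg h6.ne, if_neg (by rintro ⟨-, h⟩; linarith),
          if_neg (by rintro ⟨-, h⟩; linarith)]
        rfl
  · have hd : div (W.g σ' σ) x = 0 := by
      unfold div
      refine Finset.sum_eq_zero fun a ha => ?_
      apply HasSlope.slope_eq
      have hp := pt_par ha
      rcases h with h | h
      · exact W.slope_pos h0 h1 h2 a.2 (by rw [hp]; exact h) (by rw [hp]; exact hS)
      · exact W.slope_u h0 h1 h2 a.2 (by rw [hp]; exact h)
    rw [hd, if_neg, if_neg]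
    · rfl
    · intro h3
      exact hS ⟨σ, by linarith, h2, h3.symm⟩
    · intro h3
      exact hS ⟨σ', h0, by linarith, h3.symm⟩

lemma prym_iota (y x : Γ'.Pt) : π.prym y (π.iota x) = - π.prym y x := by
  classical
  simp only [FreeDoubleCover.prym, Finsupp.sub_apply, Finsupp.single_apply]
  have e1 : (y = π.iota x) ↔ (π.iota y = x) := by
    constructor
    · rintro rfl; exact π.iota_iota x
    · rintro rfl; exact (π.iota_iota y).symm
  have e2 : (π.iota y = π.iota x) ↔ (y = x) := by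
    constructor
    · exact π.iota_inj
    · rintro rfl; rfl
  simp only [e1, e2]
  ring

theorem linEquiv {σ' σ : ℝ} (h0 : 0 < σ') (h1 : σ' < σ) (h2 : σ < W.ε) :
    LinEquiv (π.prym (W.At σ')) (π.prym (W.At σ)) := by
  refine ⟨W.g σ' σ, W.isRational_g h0 h1 h2, fun x => ?_⟩
  rcases W.upper_or x with h | h
  · exact W.div_upper h0 h1 h2 x h
  · have h3 := W.div_upper h0 h1 h2 _ h
    rw [prym_iota, prym_iota, ← π.div_iota (W.isRational_g h0 h1 h2)] at h3
    have h4 : div (fun x => W.g σ' σ (π.iota x)) x = - div (W.g σ' σ) x := by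
      unfold div
      rw [← Finset.sum_neg_distrib]
      refine Finset.sum_congr rfl fun a _ => ?_
      have h5 := (W.isRational_g h0 h1 h2).hasSlope (π.ιE a.1) (par x a) a.2
      have h6 := (π.hasSlope_iota h5).slope_eq
      have h7 := (W.hasSlope_g_iota h5).slope_eq
      rw [h6, h7, neg_neg]
    rw [h4] at h3
    linarith

end Strand

/-- **Main theorem.** -/
theorem injective_of_finite (π : FreeDoubleCover Γ' Γ) [PreconnectedSpace Γ'.Pt]
    (h2 : TwoConnected Γ) (hfin : π.FiniteAbelPrym) : π.InjectiveAbelPrym := by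
  intro p q hpq
  by_contra hne
  obtain ⟨A⟩ := exists_anti hpq
  obtain ⟨u, hu, hnu⟩ := A.exists_zero hne
  obtain ⟨hn2, hns⟩ := A.struct hne u hu hnu
  have hex : ∃ x, A.f x ≠ 0 := by
    by_contra hc
    push Not at hc
    have h3 := A.hdiv p
    have h4 : div A.f p = 0 := by
      unfold div
      refine Finset.sum_eq_zero fun a _ => ?_
      apply HasSlope.slope_eq
      refine ⟨1, one_pos, fun s _ _ => ?_⟩
      rw [hc, hc]; simp
    rw [h4] at h3
    classical
    simp only [FreeDoubleCover.prym, Finsupp.sub_apply, Finsupp.single_apply, π.iota_ne,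
      if_true, if_false, if_neg (Ne.symm hne)] at h3
    split_ifs at h3 <;> omega
  have hz := A.zero_set h2 u hu hex hns
  obtain ⟨a, a', ha, hs, ha', hs', hall⟩ := A.exists_dirs u hu hz hn2
  obtain ⟨ε₁, hε₁, k1⟩ := exists_inner ha
  obtain ⟨ε₂, hε₂, k2⟩ := A.rat.hasSlope a.1 (par u a) a.2
  rw [hs, pt_par ha, hu] at k2
  let W : Strand A u :=
    { hu := hu, hz := hz, a := a, ha := ha, a' := a', ha' := ha', hs' := hs', all := hall
      ε := min ε₁ ε₂
      hε := lt_min hε₁ hε₂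
      inner := fun s h3 h4 => k1 s h3 (h4.trans_le (min_le_left _ _))
      val := fun s h3 h4 => by
        rw [k2 s h3 (h4.trans_le (min_le_right _ _))]
        push_cast; ring }
  have hW := W.hε
  have hinf : (W.At '' Ioo 0 (W.ε / 2)).Infinite := by
    apply Set.Infinite.image
    · intro s hs t ht h
      exact W.At_inj hs.1 (by linarith [hs.2]) ht.1 (by linarith [ht.2]) h
    · exact Set.Ioo_infinite (by linarith)
  apply hinf
  refine (hfin (W.At (W.ε / 2))).subset ?_
  rintro _ ⟨s, hs, rfl⟩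
  exact W.linEquiv hs.1 hs.2 (by linarith)

end Pool.Agent.R866.AP
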