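import Pool.Agent.R866.AP.Cover

/-!
# The zero set of an antisymmetric function with divisor `p - ιp - q + ιq`
-/

set_option autoImplicit false
set_option linter.all false

open Filter Topology Set

namespace Pool.Agent.R866.AP

open MetricGraph

/-- integer sign -/
noncomputable def sI (r : ℝ) : ℤ := if 0 < r then 1 else if r < 0 then -1 else 0

lemma sI_neg (r : ℝ) : sI (-r) = - sI r := by
  unfold sI
  rcases lt_trichotomy r 0 with h | h | h
  · simp [h, not_lt.2 h.le]
  · simp [h]
  · simp [h, not_lt.2 h.le]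

lemma sI_le (r : ℝ) : sI r ≤ 1 := by
  unfold sI; split_ifs <;> norm_num

lemma le_sI (r : ℝ) : -1 ≤ sI r := by
  unfold sI; split_ifs <;> norm_num

lemma sI_eq_one {r : ℝ} (h : sI r = 1) : 0 < r := by
  unfold sI at h
  by_contra hc
  rw [if_neg hc] at h
  split_ifs at h <;> omega

lemma sI_eq_neg_one {r : ℝ} (h : sI r = -1) : r < 0 := by
  unfold sI at h
  by_contra hc
  rw [if_neg hc] at h
  split_ifs at h <;> omega

/-- the data of the main argument -/
structure Anti {Γ' Γ : MetricGraph} (π : FreeDoubleCover Γ' Γ) (p q : Γ'.Pt) where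
  f : Γ'.Pt → ℝ
  rat : IsRational f
  anti : ∀ x, f (π.iota x) = - f x
  hdiv : ∀ x, div f x = π.prym p x - π.prym q x

variable {Γ' Γ : MetricGraph} {π : FreeDoubleCover Γ' Γ} {p q : Γ'.Pt}

lemma slope_neg {g : Γ'.Pt → ℝ} (hg : IsRational g) (e : Γ'.E) (t : ℝ) (b : Bool) :
    slope (fun x => - g x) e t b = - slope g e t b := (hg.hasSlope e t b).neg.slope_eq

lemma exists_anti [PreconnectedSpace Γ'.Pt] (h : LinEquiv (π.prym p) (π.prym q)) :
    Nonempty (Anti π p q) := by
  obtain ⟨f, hf, hd⟩ := h
  have hr := hf.add (π.isRational_iota hf)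
  have hp : ∀ x, π.prym p (π.iota x) = - π.prym p x := by
    intro x
    classical
    simp only [FreeDoubleCover.prym, Finsupp.sub_apply, Finsupp.single_apply]
    have e1 : (p = π.iota x) ↔ (π.iota p = x) := by
      constructor
      · rintro rfl; exact π.iota_iota x
      · rintro rfl; exact (π.iota_iota p).symm
    have e2 : (π.iota p = π.iota x) ↔ (p = x) := by
      constructor
      · exact π.iota_inj
      · rintro rfl; rfl
    simp only [e1, e2]
    ring
  have hq : ∀ x, π.prym q (π.iota x) = - π.prym q x := by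
    intro x
    classical
    simp only [FreeDoubleCover.prym, Finsupp.sub_apply, Finsupp.single_apply]
    have e1 : (q = π.iota x) ↔ (π.iota q = x) := by
      constructor
      · rintro rfl; exact π.iota_iota x
      · rintro rfl; exact (π.iota_iota q).symm
    have e2 : (π.iota q = π.iota x) ↔ (q = x) := by
      constructor
      · exact π.iota_inj
      · rintro rfl; rfl
    simp only [e1, e2]
    ring
  have h0 : ∀ x, div (fun x => f x + f (π.iota x)) x = 0 := by
    intro x
    have e1 : div (fun x => f x + f (π.iota x)) x = div f x + div (fun x => f (π.iota x)) x := by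
      unfold div
      rw [← Finset.sum_add_distrib]
      refine Finset.sum_congr rfl fun a _ => ?_
      exact ((hf.hasSlope _ _ _).add ((π.isRational_iota hf).hasSlope _ _ _)).slope_eq
    rw [e1, π.div_iota hf, ← hd, ← hd, hp, hq]
    ring
  have hc := const_of_div_zero hr h0
  refine ⟨⟨fun x => f x + - ((f p + f (π.iota p)) / 2), hf.add_const _, ?_, ?_⟩⟩
  · intro x
    have := hc x p
    linarith
  · intro x
    rw [hd]
    unfold div
    refine Finset.sum_congr rfl fun a _ => ?_
    exact ((hf.hasSlope _ _ _).add_const _).slope_eq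

namespace Anti

variable (A : Anti π p q)

lemma slope_iota (e : Γ'.E) (t : ℝ) (b : Bool) :
    slope A.f (π.ιE e) t b = - slope A.f e t b := by
  rw [← π.slope_iota A.rat, ← slope_neg A.rat]
  congr 1
  funext x
  exact A.anti x

lemma nn_iota (x : Γ'.Pt) : nn A.f (π.iota x) = nn A.f x := by
  rw [← π.nn_iota A.rat]
  have : (fun x => A.f (π.iota x)) = fun x => - A.f x := by
    funext x
    exact A.anti x
  rw [this]
  unfold nn
  refine Finset.sum_congr rfl fun a _ => ?_
  rw [slope_neg A.rat, abs_neg]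

lemma cont : Continuous A.f := A.rat.continuous

lemma isOpen_pos : IsOpen {x | 0 < A.f x} := isOpen_lt continuous_const A.cont

lemma isOpen_neg : IsOpen {x | A.f x < 0} := isOpen_lt A.cont continuous_const

lemma exists_zero [PreconnectedSpace Γ'.Pt] (hpq : p ≠ q) :
    ∃ u, A.f u = 0 ∧ nn A.f u ≠ 0 := by
  by_contra hc
  push Not at hc
  have ho : IsOpen {x | A.f x = 0} := by
    have := isOpen_eq_of_nn A.rat ∅ isClosed_empty 0 (fun x hx _ => hc x hx)
    simpa using this
  have hcl : IsClosed {x | A.f x = 0} := isClosed_eq A.cont continuous_const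
  rcases isClopen_iff.1 ⟨hcl, ho⟩ with h | h
  · have h1 : ∀ x, A.f x ≠ 0 := fun x hx => by
      have : x ∈ {x | A.f x = 0} := hx
      rw [h] at this
      exact this
    have h2 : IsClosed {x | 0 < A.f x} := by
      have : {x | 0 < A.f x} = {x | 0 ≤ A.f x} := by
        ext x
        rw [mem_setOf_eq, mem_setOf_eq]
        exact ⟨fun h => le_of_lt h, fun h' => lt_of_le_of_ne h' (Ne.symm (h1 x))⟩
      rw [this]
      exact isClosed_le continuous_const A.cont
    rcases isClopen_iff.1 ⟨h2, A.isOpen_pos⟩ with h3 | h3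
    · have h4 : ∀ x, ¬ 0 < A.f x := fun x hx => by
        have : x ∈ {x | 0 < A.f x} := hx
        rw [h3] at this
        exact this
      have h5 := h4 p
      have h6 := h4 (π.iota p)
      rw [A.anti] at h6
      exact h1 p (by linarith [not_lt.1 h5, not_lt.1 h6])
    · have h4 : ∀ x, 0 < A.f x := fun x => by
        have : x ∈ {x | 0 < A.f x} := by rw [h3]; trivial
        exact this
      have h5 := h4 p
      have h6 := h4 (π.iota p)
      rw [A.anti] at h6
      linarith
  · have h1 : A.f p = 0 := by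
      have : p ∈ {x | A.f x = 0} := by rw [h]; trivial
      exact this
    have h2 := abs_div_le A.f p
    rw [hc p h1, A.hdiv] at h2
    have h3 : (π.prym p p - π.prym q p) = 0 := abs_eq_zero.1 (le_antisymm h2 (abs_nonneg _))
    classical
    simp only [FreeDoubleCover.prym, Finsupp.sub_apply, Finsupp.single_apply, π.iota_ne,
      if_true, if_false, hpq.symm] at h3
    split_ifs at h3 <;> omega

lemma sum_single {S : Finset Γ'.Pt} {y : Γ'.Pt} (hy : y ∈ S) (w : Γ'.Pt → ℤ) :
    ∑ x ∈ S, w x * (Finsupp.single y (1 : ℤ)) x = w y := by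
  classical
  rw [Finset.sum_eq_single_of_mem y hy]
  · simp
  · intro x _ hx
    rw [Finsupp.single_eq_of_ne hx, mul_zero]

/-- Steps B and C -/
lemma struct (hpq : p ≠ q) (u : Γ'.Pt) (hu : A.f u = 0) (hnu : nn A.f u ≠ 0) :
    nn A.f u ≤ 2 ∧ ∀ x, A.f x = 0 → x ∉ ({u, π.iota u} : Set Γ'.Pt) → nn A.f x = 0 := by
  classical
  obtain ⟨S0, h1, h2⟩ := exists_support' A.rat
  let S : Finset Γ'.Pt := S0 ∪ {p, π.iota p, q, π.iota q}
  have hpS : p ∈ S := by simp [S]
  have hpS' : π.iota p ∈ S := by simp [S]
  have hqS : q ∈ S := by simp [S]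
  have hqS' : π.iota q ∈ S := by simp [S]
  have hs := sum_abs A.rat S (fun x hx => Finset.mem_union_left _ (h1 x hx))
    (fun x hx hx' => Finset.mem_union_left _ (h2 x hx hx'))
  have hR : ∑ x ∈ S, (if 0 < A.f x then div A.f x else if A.f x < 0 then - div A.f x else 0) =
      2 * sI (A.f p) - 2 * sI (A.f q) := by
    have : ∀ x ∈ S, (if 0 < A.f x then div A.f x else if A.f x < 0 then - div A.f x else 0) =
        sI (A.f x) * (Finsupp.single p (1 : ℤ)) x -
        sI (A.f x) * (Finsupp.single (π.iota p) (1 : ℤ)) x -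
        (sI (A.f x) * (Finsupp.single q (1 : ℤ)) x -
        sI (A.f x) * (Finsupp.single (π.iota q) (1 : ℤ)) x) := by
      intro x _
      have e : div A.f x = (Finsupp.single p (1 : ℤ)) x - (Finsupp.single (π.iota p) (1 : ℤ)) x -
          ((Finsupp.single q (1 : ℤ)) x - (Finsupp.single (π.iota q) (1 : ℤ)) x) := by
        rw [A.hdiv]; rfl
      rw [e]
      unfold sI
      split_ifs <;> ring
    rw [Finset.sum_congr rfl this, Finset.sum_sub_distrib, Finset.sum_sub_distrib,
      Finset.sum_sub_distrib, sum_single hpS, sum_single hpS', sum_single hqS, sum_single hqS',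
      A.anti, A.anti, sI_neg, sI_neg]
    ring
  rw [hR] at hs
  have hnn : ∀ x ∈ S, 0 ≤ (if A.f x = 0 then nn A.f x else 0) := by
    intro x _
    split_ifs
    · exact nn_nonneg _ _
    · exact le_rfl
  have b1 := sI_le (A.f q)
  have b2 := le_sI (A.f p)
  have b3 := le_sI (A.f q)
  have b4 := sI_le (A.f p)
  have hnuS : ∀ x, A.f x = 0 → nn A.f x ≠ 0 → x ∈ S := fun x hx hx' =>
    Finset.mem_union_left _ (h2 x hx hx')
  have hiu : A.f (π.iota u) = 0 := by rw [A.anti, hu, neg_zero]
  have pos : 1 ≤ nn A.f u := by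
    have := nn_nonneg A.f u
    omega
  constructor
  · have hsub : ({u, π.iota u} : Finset Γ'.Pt) ⊆ S := by
      intro x hx
      simp only [Finset.mem_insert, Finset.mem_singleton] at hx
      rcases hx with rfl | rfl
      · exact hnuS _ hu hnu
      · exact hnuS _ hiu (by rwa [A.nn_iota])
    have h3 := Finset.sum_le_sum_of_subset_of_nonneg hsub (fun x hx _ => hnn x hx)
    rw [hs, Finset.sum_pair (π.iota_ne u).symm, if_pos hu, if_pos hiu, A.nn_iota] at h3
    omega
  · intro x hx hxu
    by_contra hnx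
    have hix : A.f (π.iota x) = 0 := by rw [A.anti, hx, neg_zero]
    simp only [mem_insert_iff, mem_singleton_iff, not_or] at hxu
    have pos' : 1 ≤ nn A.f x := by
      have := nn_nonneg A.f x
      omega
    have hsub : ({u, π.iota u, x, π.iota x} : Finset Γ'.Pt) ⊆ S := by
      intro y hy
      simp only [Finset.mem_insert, Finset.mem_singleton] at hy
      rcases hy with rfl | rfl | rfl | rfl
      · exact hnuS _ hu hnu
      · exact hnuS _ hiu (by rwa [A.nn_iota])
      · exact hnuS _ hx hnx
      · exact hnuS _ hix (by rwa [A.nn_iota])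
    have h3 := Finset.sum_le_sum_of_subset_of_nonneg hsub (fun x hx _ => hnn x hx)
    have n1 : u ∉ ({π.iota u, x, π.iota x} : Finset Γ'.Pt) := by
      simp only [Finset.mem_insert, Finset.mem_singleton, not_or]
      refine ⟨(π.iota_ne u).symm, fun h => hxu.1 h.symm, fun h => hxu.2 ?_⟩
      rw [h, π.iota_iota]
    have n2 : π.iota u ∉ ({x, π.iota x} : Finset Γ'.Pt) := by
      simp only [Finset.mem_insert, Finset.mem_singleton, not_or]
      exact ⟨fun h => hxu.2 h.symm, fun h => hxu.1 (π.iota_inj h).symm⟩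
    rw [hs, Finset.sum_insert n1, Finset.sum_insert n2, Finset.sum_pair (π.iota_ne x).symm,
      if_pos hu, if_pos hiu, if_pos hx, if_pos hix, A.nn_iota, A.nn_iota] at h3
    have c1 : sI (A.f q) = 1 := by omega
    have c2 : sI (A.f p) = -1 := by omega
    have c3 : nn A.f u = 1 := by omega
    have d1 := sI_eq_one c1
    have d2 := sI_eq_neg_one c2
    have hd : div A.f u = 0 := by
      rw [A.hdiv]
      have g1 : p ≠ u := by rintro rfl; linarith
      have g2 : q ≠ u := by rintro rfl; linarith
      have g3 : π.iota p ≠ u := by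
        rintro rfl
        rw [A.anti] at hu; linarith
      have g4 : π.iota q ≠ u := by
        rintro rfl
        rw [A.anti] at hu; linarith
      simp only [FreeDoubleCover.prym, Finsupp.sub_apply, Finsupp.single_apply, if_neg g1,
        if_neg g2, if_neg g3, if_neg g4, sub_zero]
    have := two_dvd A.f u
    rw [c3, hd] at this
    omega

/-- Step D -/
lemma zero_set (h2 : TwoConnected Γ) (u : Γ'.Pt) (hu : A.f u = 0)
    (hne : ∃ x, A.f x ≠ 0)
    (h : ∀ x, A.f x = 0 → x ∉ ({u, π.iota u} : Set Γ'.Pt) → nn A.f x = 0) :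
    ∀ x, A.f x = 0 → x = u ∨ x = π.iota u := by
  intro x0 hx0
  by_contra hc
  push Not at hc
  have hiu : A.f (π.iota u) = 0 := by rw [A.anti, hu, neg_zero]
  have hcl : IsClosed ({u, π.iota u} : Set Γ'.Pt) := by
    have := (isClosed_singleton' u).union (isClosed_singleton' (π.iota u))
    rw [Set.insert_eq]
    exact this
  have ho := isOpen_eq_of_nn A.rat _ hcl 0 h
  have hW : π.map ⁻¹' (π.map '' ({x | A.f x = 0} \ {u, π.iota u})) =
      {x | A.f x = 0} \ {u, π.iota u} := by
    ext x
    constructor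
    · rintro ⟨y, ⟨hy, hy'⟩, hxy⟩
      rcases (π.map_eq_iff y x).1 hxy with rfl | rfl
      · exact ⟨hy, hy'⟩
      · refine ⟨?_, ?_⟩
        · show A.f (π.iota y) = 0
          rw [A.anti, show A.f y = 0 from hy, neg_zero]
        · intro hh
          apply hy'
          rcases hh with hh | hh
          · right
            rw [mem_singleton_iff, ← hh, π.iota_iota]
          · left
            exact π.iota_inj hh
    · intro hx
      exact ⟨x, hx, rfl⟩
  have hU : π.map ⁻¹' (π.map '' {x | A.f x ≠ 0}) = {x | A.f x ≠ 0} := by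
    ext x
    constructor
    · rintro ⟨y, hy, hxy⟩
      rcases (π.map_eq_iff y x).1 hxy with rfl | rfl
      · exact hy
      · show A.f (π.iota y) ≠ 0
        rw [A.anti]
        exact neg_ne_zero.2 hy
    · intro hx
      exact ⟨x, hx, rfl⟩
  have oW : IsOpen (π.map '' ({x | A.f x = 0} \ {u, π.iota u})) := π.isOpen_of (by rw [hW]; exact ho)
  have oU : IsOpen (π.map '' {x | A.f x ≠ 0}) := π.isOpen_of (by
    rw [hU]
    exact (isClosed_eq A.cont continuous_const).isOpen_compl)
  have hcov : ({π.map u}ᶜ : Set Γ.Pt) ⊆ π.map '' ({x | A.f x = 0} \ {u, π.iota u}) ∪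
      π.map '' {x | A.f x ≠ 0} := by
    intro y hy
    obtain ⟨x, rfl⟩ := π.map_surjective y
    by_cases hx : A.f x = 0
    · left
      refine ⟨x, ⟨hx, ?_⟩, rfl⟩
      rintro (rfl | hh)
      · exact hy rfl
      · apply hy
        rw [mem_singleton_iff] at hh ⊢
        exact (π.map_eq_iff x u).2 (Or.inr (by rw [hh, π.iota_iota]))
    · right
      exact ⟨x, hx, rfl⟩
  obtain ⟨x1, hx1⟩ := hne
  have m1 : ∀ x, x ≠ u → x ≠ π.iota u → π.map x ∈ ({π.map u}ᶜ : Set Γ.Pt) := by
    intro x h3 h4 h5
    rcases (π.map_eq_iff u x).1 (h5 : π.map x = π.map u).symm with h6 | h6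
    · exact h3 h6
    · exact h4 h6
  have hx1' : π.map x1 ∈ ({π.map u}ᶜ : Set Γ.Pt) := by
    apply m1
    · rintro rfl; exact hx1 hu
    · rintro rfl; exact hx1 hiu
  obtain ⟨y, -, ⟨x, hx, hxy⟩, ⟨x', hx', hxy'⟩⟩ := (h2 (π.map u)).isPreconnected _ _ oW oU hcov
    ⟨π.map x0, m1 _ hc.1 hc.2, x0, ⟨hx0, by
      rintro (hh | hh)
      · exact hc.1 hh
      · exact hc.2 hh⟩, rfl⟩ ⟨π.map x1, hx1', x1, hx1, rfl⟩
  rcases (π.map_eq_iff x x').1 (hxy.trans hxy'.symm) with h6 | h6
  · subst h6
    exact hx' hx.1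
  · subst h6
    apply hx'
    rw [A.anti, show A.f x = 0 from hx.1, neg_zero]

end Anti

end Pool.Agent.R866.AP
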